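import Pool.Agent.MP_6574cc_co.H69.Hyper

/-! Degrees, links, restrictions and the normalising factor `n ^ s / s!`. -/

namespace Pool.Agent.MP_6574cc_co.H13

open Finset

variable {α : Type*} [DecidableEq α]

/-- number of members containing `S` -/
def dg (F : Finset (Finset α)) (S : Finset α) : ℕ := (F.filter (fun C => S ⊆ C)).card

/-- link of a set -/
def lk (F : Finset (Finset α)) (T : Finset α) : Finset (Finset α) :=
  (F.filter (fun C => T ⊆ C)).image (fun C => C \ T)

/-- members disjoint from `T` -/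
def av (F : Finset (Finset α)) (T : Finset α) : Finset (Finset α) :=
  F.filter (fun C => Disjoint C T)

/-- the normalising factor -/
noncomputable def nu (n : ℝ) (s : ℕ) : ℝ := n ^ s / s.factorial

/-- no generalized triangle with the two close members in `F` and the third in `F'` -/
def Cross (F F' : Finset (Finset α)) : Prop :=
  ∀ (Z : Finset α) (a b : α), a ≠ b → a ∉ Z → b ∉ Z → insert a Z ∈ F → insert b Z ∈ F →
    ∀ C ∈ F', a ∈ C → b ∈ C → Disjoint C Z → False

/-- spread families -/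
def Spr (β Λ : ℝ) (F : Finset (Finset α)) : Prop := ∀ S : Finset α, (dg F S : ℝ) ≤ β ^ S.card * Λ

theorem mem_lk {F : Finset (Finset α)} {T Z : Finset α} :
    Z ∈ lk F T ↔ Disjoint Z T ∧ Z ∪ T ∈ F := by
  simp only [lk, mem_image, mem_filter]
  constructor
  · rintro ⟨C, ⟨h1, h2⟩, rfl⟩
    exact ⟨sdiff_disjoint, by rwa [sdiff_union_of_subset h2]⟩
  · rintro ⟨h1, h2⟩
    exact ⟨Z ∪ T, ⟨h2, subset_union_right⟩, by rw [union_sdiff_right, h1.sdiff_eq_left]⟩

theorem mem_av {F : Finset (Finset α)} {T C : Finset α} : C ∈ av F T ↔ C ∈ F ∧ Disjoint C T :=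
  mem_filter

theorem av_subset (F : Finset (Finset α)) (T : Finset α) : av F T ⊆ F := filter_subset _ _

theorem card_lk (F : Finset (Finset α)) (T : Finset α) : (lk F T).card = dg F T := by
  refine card_image_of_injOn fun C hC C' hC' h => ?_
  have h1 := (mem_filter.1 (mem_coe.1 hC)).2
  have h2 := (mem_filter.1 (mem_coe.1 hC')).2
  rw [← sdiff_union_of_subset h1, ← sdiff_union_of_subset h2]
  exact congrArg (· ∪ T) h

theorem lk_sub {F : Finset (Finset α)} {V : Finset α} {s : ℕ} (hF : F ⊆ powersetCard s V)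
    (T : Finset α) : lk F T ⊆ powersetCard (s - T.card) V := by
  intro Z hZ
  obtain ⟨h1, h2⟩ := mem_lk.1 hZ
  obtain ⟨h3, h4⟩ := mem_powersetCard.1 (hF h2)
  rw [card_union_of_disjoint h1] at h4
  exact mem_powersetCard.2 ⟨subset_union_left.trans h3, by omega⟩

theorem dg_empty (F : Finset (Finset α)) : dg F ∅ = F.card := by simp [dg]

theorem dg_mono {F F' : Finset (Finset α)} (h : F ⊆ F') (S : Finset α) : dg F S ≤ dg F' S :=
  card_le_card (filter_subset_filter _ h)

theorem dg_pos {F : Finset (Finset α)} {S : Finset α} (h : 0 < dg F S) : ∃ C ∈ F, S ⊆ C := by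
  obtain ⟨C, hC⟩ := card_pos.1 h
  exact ⟨C, mem_filter.1 hC⟩

theorem dg_lk (F : Finset (Finset α)) (T S : Finset α) : dg (lk F T) S ≤ dg F (S ∪ T) := by
  refine card_le_card_of_injOn (fun Z => Z ∪ T) (fun Z hZ => ?_) fun Z hZ Z' hZ' h => ?_
  · obtain ⟨h1, h2⟩ := mem_filter.1 (mem_coe.1 hZ)
    exact mem_coe.2 (mem_filter.2 ⟨(mem_lk.1 h1).2, union_subset_union h2 Subset.rfl⟩)
  · have h1 := (mem_lk.1 (mem_filter.1 (mem_coe.1 hZ)).1).1
    have h2 := (mem_lk.1 (mem_filter.1 (mem_coe.1 hZ')).1).1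
    have := congrArg (· \ T) h
    simpa only [union_sdiff_right, h1.sdiff_eq_left, h2.sdiff_eq_left] using this

theorem dg_lk_zero (F : Finset (Finset α)) {T S : Finset α} (h : ¬ Disjoint S T) :
    dg (lk F T) S = 0 := by
  by_contra h0
  obtain ⟨C, h1, h2⟩ := dg_pos (Nat.pos_of_ne_zero h0)
  exact h ((mem_lk.1 h1).1.mono_left h2)

theorem nu_nonneg {n : ℝ} (hn : 0 ≤ n) (s : ℕ) : 0 ≤ nu n s := by
  unfold nu
  positivity

theorem nu_pos {n : ℝ} (hn : 0 < n) (s : ℕ) : 0 < nu n s := by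
  unfold nu
  positivity

theorem nu_succ (n : ℝ) (s : ℕ) : (s + 1) * nu n (s + 1) = n * nu n s := by
  unfold nu
  rw [Nat.factorial_succ, pow_succ]
  push_cast
  field_simp

theorem nu_mono {m n : ℝ} (hm : 0 ≤ m) (h : m ≤ n) (s : ℕ) : nu m s ≤ nu n s := by
  unfold nu
  gcongr

theorem nu_mul (n : ℝ) (a b : ℕ) : nu n a * nu n b = (a + b).choose a * nu n (a + b) := by
  unfold nu
  rw [Nat.cast_choose ℝ (Nat.le_add_right a b), Nat.add_sub_cancel_left, pow_add]
  field_simp

theorem nu_sub {n : ℝ} (hn : 0 < n) {s k : ℕ} (hs : s ≤ k) (t : ℕ) (ht : t ≤ s) :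
    nu n (s - t) ≤ (k / n) ^ t * nu n s := by
  induction t with
  | zero => simp
  | succ t ih =>
    have h1 := nu_succ n (s - (t + 1))
    have e : s - (t + 1) + 1 = s - t := by omega
    rw [e] at h1
    have h2 : ((s - (t + 1) : ℕ) : ℝ) + 1 ≤ k := by
      have : s - (t + 1) + 1 ≤ k := by omega
      exact_mod_cast this
    have h3 := nu_nonneg hn.le (s - t)
    have h4 : nu n (s - (t + 1)) ≤ k / n * nu n (s - t) := by
      rw [div_mul_eq_mul_div, le_div_iff₀ hn]
      nlinarith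
    calc _ ≤ k / n * nu n (s - t) := h4
      _ ≤ k / n * ((k / n) ^ t * nu n s) :=
          mul_le_mul_of_nonneg_left (ih (by omega)) (by positivity)
      _ = _ := by ring

theorem choose_le_nu (n s : ℕ) : (n.choose s : ℝ) ≤ nu n s := Nat.choose_le_pow_div s n

theorem card_le_nu {F : Finset (Finset α)} {V : Finset α} {s : ℕ} (hF : F ⊆ powersetCard s V) :
    (F.card : ℝ) ≤ nu V.card s := by
  refine le_trans ?_ (choose_le_nu _ _)
  rw [← card_powersetCard]
  exact_mod_cast card_le_card hF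

theorem dg_le_nu {F : Finset (Finset α)} {V : Finset α} {s : ℕ} (hF : F ⊆ powersetCard s V)
    (S : Finset α) : (dg F S : ℝ) ≤ nu V.card (s - S.card) := by
  rw [← card_lk]
  exact card_le_nu (lk_sub hF S)

theorem card_le_av (F : Finset (Finset α)) (T : Finset α) :
    F.card ≤ (av F T).card + ∑ u ∈ T, dg F {u} := by
  have h : F ⊆ av F T ∪ T.biUnion fun u => F.filter (fun C => {u} ⊆ C) := by
    intro C hC
    by_cases hd : Disjoint C T
    · exact mem_union_left _ (mem_av.2 ⟨hC, hd⟩)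
    · obtain ⟨u, h1, h2⟩ := not_disjoint_iff.1 hd
      exact mem_union_right _
        (mem_biUnion.2 ⟨u, h2, mem_filter.2 ⟨hC, singleton_subset_iff.2 h1⟩⟩)
  exact (card_le_card h).trans ((card_union_le _ _).trans (Nat.add_le_add_left card_biUnion_le _))

theorem card_le_av' (F : Finset (Finset α)) (T : Finset α) {x : ℝ}
    (h : ∀ u ∈ T, (dg F {u} : ℝ) ≤ x) : (F.card : ℝ) ≤ (av F T).card + T.card * x := by
  have h1 : (F.card : ℝ) ≤ (av F T).card + ∑ u ∈ T, (dg F {u} : ℝ) := by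
    exact_mod_cast card_le_av F T
  have h2 := sum_le_card_nsmul T _ _ h
  rw [nsmul_eq_mul] at h2
  linarith

theorem av_sub {F : Finset (Finset α)} {V : Finset α} {s : ℕ} (hF : F ⊆ powersetCard s V)
    (Z : Finset α) : av F Z ⊆ powersetCard s (V \ Z) := by
  intro C hC
  obtain ⟨h1, h2⟩ := mem_av.1 hC
  obtain ⟨h3, h4⟩ := mem_powersetCard.1 (hF h1)
  exact mem_powersetCard.2 ⟨subset_sdiff.2 ⟨h3, h2⟩, h4⟩

theorem card_av_le {F : Finset (Finset α)} {V Z : Finset α} {s : ℕ} (hF : F ⊆ powersetCard s V)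
    (hZ : Z ⊆ V) (hV : 0 < V.card) :
    ((av F Z).card : ℝ) ≤ Real.exp (-(Z.card * s / V.card)) * nu V.card s := by
  refine (card_le_nu (av_sub hF Z)).trans ?_
  have hV' : (0 : ℝ) < V.card := by exact_mod_cast hV
  have h1 : ((V \ Z).card : ℝ) = V.card - Z.card := by
    rw [card_sdiff_of_subset hZ, Nat.cast_sub (card_le_card hZ)]
  have h2 : ((V \ Z).card : ℝ) ≤ Real.exp (-(Z.card / V.card)) * V.card := by
    have := Real.add_one_le_exp (-((Z.card : ℝ) / V.card))
    have h3 := mul_le_mul_of_nonneg_right this hV'.le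
    rw [add_mul, neg_mul, div_mul_cancel₀ _ hV'.ne'] at h3
    linarith
  refine (nu_mono (Nat.cast_nonneg _) h2 s).trans (le_of_eq ?_)
  unfold nu
  rw [mul_pow, ← Real.exp_nat_mul, mul_div_assoc]
  congr 2
  ring

theorem sum_dg {F : Finset (Finset α)} {V : Finset α} {s : ℕ} (hF : F ⊆ powersetCard s V) (j : ℕ) :
    ∑ S ∈ powersetCard j V, dg F S = s.choose j * F.card := by
  simp only [dg, card_filter]
  rw [sum_comm, mul_comm, ← smul_eq_mul, ← sum_const]
  refine sum_congr rfl fun C hC => ?_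
  obtain ⟨h1, h2⟩ := mem_powersetCard.1 (hF hC)
  rw [← card_filter, ← h2, ← card_powersetCard]
  congr 1
  ext S
  simp only [mem_filter, mem_powersetCard]
  exact ⟨fun h => ⟨h.2, h.1.2⟩, fun h => ⟨⟨h.1.trans h1, h.2⟩, h.1⟩⟩

theorem Cross.mono {F F' G G' : Finset (Finset α)} (h : Cross F F') (h1 : G ⊆ F) (h2 : G' ⊆ F') :
    Cross G G' :=
  fun Z a b a1 a2 a3 a4 a5 C a6 => h Z a b a1 a2 a3 (h1 a4) (h1 a5) C (h2 a6)

theorem Cross.lk {F F' : Finset (Finset α)} (h : Cross F F') {T T' : Finset α}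
    (hT : ∀ C ∈ F', Disjoint C T) : Cross (av (lk F T) T') (lk F' T') := by
  intro Z a b hab ha hb h1 h2 C hC h3 h4 h5
  obtain ⟨a1, a2⟩ := mem_av.1 h1
  obtain ⟨a3, a4⟩ := mem_lk.1 a1
  obtain ⟨a5, a6⟩ := mem_lk.1 (mem_av.1 h2).1
  obtain ⟨-, c2⟩ := mem_lk.1 hC
  rw [insert_union] at a4 a6
  refine h (Z ∪ T) a b hab ?_ ?_ a4 a6 (C ∪ T') c2 (mem_union_left _ h3) (mem_union_left _ h4) ?_
  · rw [mem_union, not_or]
    exact ⟨ha, disjoint_left.1 a3 (mem_insert_self _ _)⟩
  · rw [mem_union, not_or]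
    exact ⟨hb, disjoint_left.1 a5 (mem_insert_self _ _)⟩
  · rw [disjoint_union_right, disjoint_union_left]
    exact ⟨⟨h5, (a2.mono_left (subset_insert _ _)).symm⟩, hT _ c2⟩

/-- the standing parameters -/
structure Par (k n y : ℕ) : Prop where
  hy : 100000 ≤ y
  hk : y ^ 20 ≤ k
  he : (k : ℝ) ^ 10 ≤ (101 / 100) ^ y
  n1 : 9 * k ^ 2 ≤ 10 * n
  n2 : n ≤ 2 * k ^ 3

/-- the spread parameter -/
noncomputable def bt (k n : ℕ) : ℝ := 101 / 100 * (k / n)

namespace Par

variable {k n y : ℕ} (P : Par k n y)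
include P

theorem y0 : (100000 : ℝ) ≤ y := by exact_mod_cast P.hy

theorem ky (j : ℕ) (hj : j ≤ 20) : (y : ℝ) ^ j ≤ k := by
  have h1 : y ^ j ≤ y ^ 20 := Nat.pow_le_pow_right (by have := P.hy; omega) hj
  exact_mod_cast h1.trans P.hk

theorem kyy : 100000 * y ≤ k := by
  have h1 : y ^ 2 ≤ y ^ 20 := Nat.pow_le_pow_right (by have := P.hy; omega) (by norm_num)
  have := P.hy
  have := P.hk
  nlinarith

theorem k0 : (100000 : ℝ) * y ≤ k := by exact_mod_cast P.kyy

theorem kpos : (0 : ℝ) < k := by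
  have := P.y0
  have := P.k0
  linarith

theorem n1' : 9 * (k : ℝ) ^ 2 ≤ 10 * n := by exact_mod_cast P.n1

theorem n2' : (n : ℝ) ≤ 2 * (k : ℝ) ^ 3 := by exact_mod_cast P.n2

theorem npos : (0 : ℝ) < n := by
  have := P.n1'
  have := P.kpos
  nlinarith

theorem p_le : (k : ℝ) / n ≤ 10 / 9 / k := by
  rw [div_le_div_iff₀ P.npos P.kpos]
  have := P.n1'
  nlinarith

theorem le_p : 1 / (2 * (k : ℝ) ^ 2) ≤ k / n := by
  have := P.kpos
  rw [div_le_div_iff₀ (by positivity) P.npos]
  have := P.n2'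
  nlinarith

theorem bt_pos : 0 < bt k n := by
  have := P.kpos
  have := P.npos
  unfold bt
  positivity

theorem bt_le : bt k n * k ≤ 9 / 8 := by
  have h := P.p_le
  rw [le_div_iff₀ P.kpos] at h
  unfold bt
  linarith

theorem exp_le {x : ℝ} (h : (y : ℝ) / 2 ≤ x) : Real.exp (-x) ≤ 1 / (k : ℝ) ^ 10 := by
  have h1 : (101 / 100 : ℝ) ^ y ≤ Real.exp (1 / 100) ^ y :=
    pow_le_pow_left₀ (by norm_num) (by have := Real.add_one_le_exp (1 / 100 : ℝ); linarith) y
  rw [← Real.exp_nat_mul] at h1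
  have h2 : Real.exp (y * (1 / 100)) ≤ Real.exp x := Real.exp_le_exp.2 (by have := P.y0; linarith)
  have := P.kpos
  rw [Real.exp_neg, one_div]
  exact inv_anti₀ (by positivity) (P.he.trans (h1.trans h2))

end Par

/-- a set whose link is spread -/
structure Core (k n y s : ℕ) (F : Finset (Finset α)) (T : Finset α) : Prop where
  sm : T.card ≤ y
  le : T.card ≤ s
  mx : ∀ S : Finset α, (dg F S : ℝ) * bt k n ^ T.card ≤ bt k n ^ S.card * dg F T
  den : (F.card : ℝ) * nu n (s - T.card) ≤ dg F T * nu n s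
  pos : 0 < dg F T

theorem exists_core {k n y s : ℕ} (P : Par k n y) {V : Finset α} (hV : V.card = n)
    {F : Finset (Finset α)} (hF : F ⊆ powersetCard s V) (hs : s ≤ k)
    (h : 1 / (k : ℝ) ^ 10 * nu n s ≤ F.card) : ∃ T, Core k n y s F T := by
  have b0 := P.bt_pos
  have k0 := P.kpos
  have n0 := P.npos
  have u0 := nu_pos n0 s
  obtain ⟨T, -, hT⟩ := exists_max_image V.powerset (fun T => (dg F T : ℝ) / bt k n ^ T.card)
    ⟨∅, empty_mem_powerset _⟩
  have mx : ∀ S : Finset α, (dg F S : ℝ) * bt k n ^ T.card ≤ bt k n ^ S.card * dg F T := by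
    intro S
    by_cases h0 : dg F S = 0
    · rw [h0, Nat.cast_zero, zero_mul]
      positivity
    · obtain ⟨C, h1, h2⟩ := dg_pos (Nat.pos_of_ne_zero h0)
      have := hT S (mem_powerset.2 (h2.trans (mem_powersetCard.1 (hF h1)).1))
      rw [div_le_div_iff₀ (by positivity) (by positivity)] at this
      linarith
  have h1 := mx ∅
  rw [dg_empty, card_empty, pow_zero, one_mul] at h1
  have F0 : (0 : ℝ) < F.card := lt_of_lt_of_le (by positivity) h
  have g0 : 0 < dg F T := by
    have : (0 : ℝ) < dg F T := lt_of_lt_of_le (by positivity) h1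
    exact_mod_cast this
  obtain ⟨C, c1, c2⟩ := dg_pos g0
  have hle : T.card ≤ s := (card_le_card c2).trans (mem_powersetCard.1 (hF c1)).2.le
  have h2 := dg_le_nu hF T
  rw [hV] at h2
  have h3 := nu_sub n0 hs T.card hle
  refine ⟨T, ?_, hle, mx, ?_, g0⟩
  · have h4 : (F.card : ℝ) * (101 / 100) ^ T.card ≤ nu n s := by
      have h5 := h1.trans (h2.trans h3)
      rw [bt, mul_pow, ← mul_assoc, mul_comm ((k / n : ℝ) ^ T.card)] at h5
      exact le_of_mul_le_mul_right h5 (by positivity)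
    have h6 : (101 / 100 : ℝ) ^ T.card ≤ (k : ℝ) ^ 10 := by
      have h7 := (mul_le_mul_of_nonneg_right h
        (show (0 : ℝ) ≤ (101 / 100) ^ T.card by positivity)).trans h4
      rw [mul_right_comm, ← le_div_iff₀ u0, div_self u0.ne', one_div, inv_mul_le_iff₀ (by positivity),
        mul_one] at h7
      exact h7
    exact (pow_le_pow_iff_right₀ (by norm_num)).1 (h6.trans P.he)
  · have h4 : ((k : ℝ) / n) ^ T.card ≤ bt k n ^ T.card :=
      pow_le_pow_left₀ (by positivity) (by unfold bt; have : (0 : ℝ) ≤ k / n := by positivity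
                                           linarith) _
    calc (F.card : ℝ) * nu n (s - T.card) ≤ F.card * (bt k n ^ T.card * nu n s) :=
          mul_le_mul_of_nonneg_left (h3.trans (mul_le_mul_of_nonneg_right h4 u0.le)) F0.le
      _ = F.card * bt k n ^ T.card * nu n s := by ring
      _ ≤ _ := mul_le_mul_of_nonneg_right h1 u0.le

theorem Core.spr {k n y s : ℕ} (P : Par k n y) {F : Finset (Finset α)} {T : Finset α}
    (h : Core k n y s F T) : Spr (bt k n) (lk F T).card (lk F T) := by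
  intro S
  have b0 := P.bt_pos
  by_cases hd : Disjoint S T
  · have h1 := h.mx (S ∪ T)
    rw [card_union_of_disjoint hd, pow_add, mul_right_comm] at h1
    have h2 := le_of_mul_le_mul_right h1 (by positivity)
    rw [card_lk]
    exact le_trans (by exact_mod_cast dg_lk F T S) h2
  · rw [dg_lk_zero F hd, Nat.cast_zero]
    positivity

theorem Core.den' {k n y s : ℕ} (P : Par k n y) {F : Finset (Finset α)} {T : Finset α}
    (h : Core k n y s F T) {x : ℝ} (hx : x * nu n s ≤ F.card) :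
    x * nu n (s - T.card) ≤ (lk F T).card := by
  have u0 := nu_pos P.npos s
  have u1 := nu_pos P.npos (s - T.card)
  rw [card_lk]
  refine le_of_mul_le_mul_right (le_trans ?_ h.den) u0
  rw [mul_right_comm]
  exact mul_le_mul_of_nonneg_right hx u1.le

theorem Spr.av {k n y : ℕ} (P : Par k n y) {L : Finset (Finset α)} (h : Spr (bt k n) L.card L)
    {T : Finset α} (hT : T.card ≤ y) : (L.card : ℝ) ≤ 101 / 100 * (av L T).card := by
  have h1 := card_le_av' L T (x := bt k n * L.card) fun u _ => by simpa using h {u}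
  have h2 : (T.card : ℝ) ≤ y := by exact_mod_cast hT
  have h3 : (T.card : ℝ) * bt k n ≤ 1 / 101 := by
    have b0 := P.bt_pos
    have := P.bt_le
    have := P.k0
    nlinarith
  have h4 := mul_le_mul_of_nonneg_right h3 (Nat.cast_nonneg (α := ℝ) L.card)
  nlinarith

end Pool.Agent.MP_6574cc_co.H13
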