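import Pool.Agent.MP_6574cc_co.H13.Base

/-! Two spread families contain a disjoint pair; cross-intersecting families have small covers. -/

namespace Pool.Agent.MP_6574cc_co.H13

open Finset

variable {α : Type*} [DecidableEq α]

theorem bonf (t : ℕ) (ht : 1 ≤ t) : t.choose 2 + 1 ≤ t.choose 1 + t.choose 3 := by
  induction t, ht using Nat.le_induction with
  | base => simp
  | succ t ht ih =>
    rw [Nat.choose_succ_succ' t 1, Nat.choose_succ_succ' t 0, Nat.choose_succ_succ' t 2]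
    simp only [Nat.choose_zero_right, Nat.choose_one_right, zero_add, Nat.reduceAdd] at ih ⊢
    omega

theorem sum_dg_dg {F F' : Finset (Finset α)} {V : Finset α} (hF : ∀ C ∈ F, C ⊆ V) (j : ℕ) :
    ∑ S ∈ powersetCard j V, dg F S * dg F' S = ∑ X ∈ F, ∑ Y ∈ F', (X ∩ Y).card.choose j := by
  simp only [dg, card_filter, sum_mul_sum]
  rw [sum_comm]
  refine sum_congr rfl fun X hX => ?_
  rw [sum_comm]
  refine sum_congr rfl fun Y _ => ?_
  simp only [ite_mul, one_mul, zero_mul, ← ite_and]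
  rw [← card_filter, ← card_powersetCard]
  congr 1
  ext S
  simp only [mem_filter, mem_powersetCard, subset_inter_iff]
  exact ⟨fun h => ⟨h.2, h.1.2⟩, fun h => ⟨⟨h.1.1.trans (hF X hX), h.2⟩, h.1⟩⟩

theorem choose_two_ge {s k : ℕ} (h : 999 * k ≤ 1000 * (s - 1)) (hs : 1 ≤ s) :
    (499 / 1000 : ℝ) * k ^ 2 ≤ s.choose 2 := by
  rw [Nat.cast_choose_two]
  have h1 : (999 : ℝ) * k ≤ 1000 * (s - 1) := by
    have : ((s - 1 : ℕ) : ℝ) = s - 1 := by rw [Nat.cast_sub hs, Nat.cast_one]
    rw [← this]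
    exact_mod_cast h
  have h2 : (0 : ℝ) ≤ k := Nat.cast_nonneg k
  nlinarith

theorem exists_disjoint {k n y s s' : ℕ} (P : Par k n y) {V : Finset α} (hV : V.card = n)
    {F F' : Finset (Finset α)} (hF : F ⊆ powersetCard s V) (hF' : F' ⊆ powersetCard s' V)
    (h0 : F.Nonempty) (h0' : F'.Nonempty) (hs : k ≤ s + 3 * y + 2) (hs' : k ≤ s' + 3 * y + 2)
    (ks' : s' ≤ k)
    (h : ∀ S : Finset α, S.Nonempty → (dg F S : ℝ) ≤ (103 / 100 * (k / n)) ^ S.card * F.card)
    (h' : ∀ S : Finset α, S.Nonempty → (dg F' S : ℝ) ≤ (103 / 100 * (k / n)) ^ S.card * F'.card) :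
    ∃ X ∈ F, ∃ Y ∈ F', Disjoint X Y := by
  by_contra hc
  have hV' : ∀ C ∈ F, C ⊆ V := fun C hC => (mem_powersetCard.1 (hF hC)).1
  have h1 : ∑ S ∈ powersetCard 2 V, dg F S * dg F' S + F.card * F'.card ≤
      ∑ S ∈ powersetCard 1 V, dg F S * dg F' S + ∑ S ∈ powersetCard 3 V, dg F S * dg F' S := by
    simp only [sum_dg_dg hV', ← sum_add_distrib]
    rw [← smul_eq_mul, ← sum_const, ← sum_add_distrib]
    refine sum_le_sum fun X hX => ?_
    rw [card_eq_sum_ones F', ← sum_add_distrib]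
    refine sum_le_sum fun Y hY => bonf _ (card_pos.2 ?_)
    exact not_disjoint_iff_nonempty_inter.1 fun e => hc ⟨X, hX, Y, hY, e⟩
  have k0 := P.kpos
  have n0 := P.npos
  obtain ⟨b, hb⟩ : ∃ b : ℝ, b = 103 / 100 * (k / n) := ⟨_, rfl⟩
  rw [← hb] at h h'
  have b0 : 0 < b := by rw [hb]; positivity
  have up : ∀ j, 1 ≤ j → ((∑ S ∈ powersetCard j V, dg F S * dg F' S : ℕ) : ℝ) ≤
      (b * k) ^ j / j.factorial * (F.card * F'.card) := by
    intro j hj
    have e1 : (∑ S ∈ powersetCard j V, (dg F' S : ℝ)) = s'.choose j * F'.card := by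
      exact_mod_cast sum_dg hF' j
    have e2 : (s'.choose j : ℝ) ≤ k ^ j / j.factorial :=
      (choose_le_nu s' j).trans (nu_mono (Nat.cast_nonneg _) (by exact_mod_cast ks') j)
    push_cast
    calc _ ≤ ∑ S ∈ powersetCard j V, b ^ j * F.card * (dg F' S : ℝ) := by
          refine sum_le_sum fun S hS => mul_le_mul_of_nonneg_right ?_ (Nat.cast_nonneg _)
          have e3 := (mem_powersetCard.1 hS).2
          have := h S (card_pos.1 (by omega))
          rwa [e3] at this
      _ = b ^ j * F.card * (s'.choose j * F'.card) := by rw [← mul_sum, e1]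
      _ ≤ b ^ j * F.card * (k ^ j / j.factorial * F'.card) := by gcongr
      _ = _ := by ring
  have f0 : (0 : ℝ) < F.card := by exact_mod_cast card_pos.2 h0
  have f0' : (0 : ℝ) < F'.card := by exact_mod_cast card_pos.2 h0'
  have lo : 449 / 1000 * (b * k) ^ 2 * (F.card * F'.card) ≤
      ((∑ S ∈ powersetCard 2 V, dg F S * dg F' S : ℕ) : ℝ) := by
    have e1 : (∑ S ∈ powersetCard 2 V, (dg F S : ℝ)) = s.choose 2 * F.card := by
      exact_mod_cast sum_dg hF 2
    have e2 : (∑ S ∈ powersetCard 2 V, (dg F' S : ℝ)) = s'.choose 2 * F'.card := by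
      exact_mod_cast sum_dg hF' 2
    have y0 := P.hy
    have y1 := P.kyy
    have e3 := choose_two_ge (s := s) (k := k) (by omega) (by omega)
    have e4 := choose_two_ge (s := s') (k := k) (by omega) (by omega)
    have e5 : ((powersetCard 2 V).card : ℝ) ≤ n ^ 2 / 2 := by
      have := card_le_nu (Subset.refl (powersetCard 2 V))
      simpa [hV, nu] using this
    have e6 : ∑ S ∈ powersetCard 2 V, (b ^ 2 * F.card * (dg F' S : ℝ) + b ^ 2 * F'.card * dg F S -
        b ^ 4 * (F.card * F'.card)) ≤ ∑ S ∈ powersetCard 2 V, (dg F S : ℝ) * dg F' S := by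
      refine sum_le_sum fun S hS => ?_
      have e7 := (mem_powersetCard.1 hS).2
      have a1 := h S (card_pos.1 (by omega))
      have a2 := h' S (card_pos.1 (by omega))
      rw [e7] at a1 a2
      nlinarith [mul_nonneg (sub_nonneg.2 a1) (sub_nonneg.2 a2)]
    rw [sum_sub_distrib, sum_add_distrib, ← mul_sum, ← mul_sum, e1, e2, sum_const,
      nsmul_eq_mul] at e6
    push_cast
    refine le_trans ?_ e6
    have e8 : b * n = 103 / 100 * k := by rw [hb]; field_simp
    have e9 : (0 : ℝ) < b ^ 2 * (F.card * F'.card) := by positivity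
    have e10 := mul_le_mul_of_nonneg_right e5
      (show (0 : ℝ) ≤ b ^ 4 * (F.card * F'.card) by positivity)
    have e11 : (n : ℝ) ^ 2 / 2 * (b ^ 4 * (F.card * F'.card)) =
        (103 / 100 * k) ^ 2 / 2 * (b ^ 2 * (F.card * F'.card)) := by
      rw [← e8]
      ring
    have e12 := mul_le_mul_of_nonneg_right e3 e9.le
    have e13 := mul_le_mul_of_nonneg_right e4 e9.le
    have e14 : (0 : ℝ) ≤ k ^ 2 * (b ^ 2 * (F.card * F'.card)) := by positivity
    nlinarith
  have h2 : ((∑ S ∈ powersetCard 2 V, dg F S * dg F' S : ℕ) : ℝ) + F.card * F'.card ≤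
      ((∑ S ∈ powersetCard 1 V, dg F S * dg F' S : ℕ) : ℝ) +
        ((∑ S ∈ powersetCard 3 V, dg F S * dg F' S : ℕ) : ℝ) := by exact_mod_cast h1
  have u1 := up 1 le_rfl
  have u3 := up 3 (by norm_num)
  have a1 : b * k ≤ 1145 / 1000 := by
    have h := P.p_le
    rw [le_div_iff₀ k0] at h
    rw [hb]
    linarith
  have a0 : 0 < b * k := by positivity
  generalize b * k = a at *
  have g0 : (0 : ℝ) < F.card * F'.card := by positivity
  have h3 : 449 / 1000 * a ^ 2 + 1 ≤ a + a ^ 3 / 6 := by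
    refine le_of_mul_le_mul_right ?_ g0
    simp only [Nat.factorial] at u1 u3
    norm_num at u1 u3
    push_cast at h2 lo
    nlinarith
  nlinarith [mul_nonneg (sub_nonneg.2 a1) (sq_nonneg a), sq_nonneg (a - 1)]

theorem exists_cover {k n y s s' : ℕ} (P : Par k n y) {V : Finset α} (hV : V.card = n)
    {I J : Finset (Finset α)} (hI : I ⊆ powersetCard s V) (hJ : J ⊆ powersetCard s' V)
    (hs : k ≤ s + 2 * y + 2) (hs' : k ≤ s' + 2 * y + 2) (ks : s ≤ k) (ks' : s' ≤ k)
    (hc : ∀ X ∈ I, ∀ Y ∈ J, ¬ Disjoint X Y) (h : 1 / (k : ℝ) ^ 10 * nu n s ≤ I.card) :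
    ∃ T : Finset α, T.card ≤ y ∧ ((av J T).card : ℝ) < 1 / (k : ℝ) ^ 10 * nu n s' := by
  obtain ⟨T, hT⟩ := exists_core P hV hI ks h
  refine ⟨T, hT.sm, not_le.1 fun h' => ?_⟩
  have hJ' := (av_subset J T).trans hJ
  obtain ⟨T', hT'⟩ := exists_core P hV hJ' ks' h'
  have s1 := hT.spr P
  have s2 := hT'.spr P
  have s3 := s1.av P hT'.sm
  have k0 := P.kpos
  have n0 := P.npos
  have b0 := P.bt_pos
  have p1 : (0 : ℝ) < (lk I T).card := by rw [card_lk]; exact_mod_cast hT.pos
  have p2 : (0 : ℝ) < (av (lk I T) T').card := by linarith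
  have b1 : 101 / 100 * bt k n ≤ 103 / 100 * (k / n) := by
    have : (0 : ℝ) < k / n := by positivity
    unfold bt
    linarith
  have t1 := hT.sm
  have t2 := hT'.sm
  have t3 := hT.le
  have t4 := hT'.le
  obtain ⟨X, hX, Y, hY, hd⟩ := exists_disjoint P hV ((av_subset _ T').trans (lk_sub hI T))
    (lk_sub hJ' T') (card_pos.1 (by exact_mod_cast p2))
    (card_pos.1 (by rw [card_lk]; exact hT'.pos)) (by omega) (by omega) (by omega)
    (fun S hS => by
      have e1 : (101 / 100 : ℝ) ≤ (101 / 100) ^ S.card :=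
        le_self_pow₀ (by norm_num) (card_pos.2 hS).ne'
      calc (dg (av (lk I T) T') S : ℝ) ≤ dg (lk I T) S := by
            exact_mod_cast dg_mono (av_subset _ _) S
        _ ≤ bt k n ^ S.card * (lk I T).card := s1 S
        _ ≤ bt k n ^ S.card * ((101 / 100) ^ S.card * (av (lk I T) T').card) := by
            gcongr
            exact s3.trans (mul_le_mul_of_nonneg_right e1 p2.le)
        _ = (101 / 100 * bt k n) ^ S.card * (av (lk I T) T').card := by ring
        _ ≤ _ := by gcongr)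
    (fun S _ => (s2 S).trans (by gcongr; linarith))
  obtain ⟨a1, a2⟩ := mem_av.1 hX
  obtain ⟨-, a4⟩ := mem_lk.1 a1
  obtain ⟨-, a6⟩ := mem_lk.1 hY
  obtain ⟨a7, a8⟩ := mem_av.1 a6
  refine hc _ a4 _ a7 ?_
  rw [disjoint_union_left, disjoint_union_right]
  exact ⟨⟨hd, a2⟩, a8.symm⟩

end Pool.Agent.MP_6574cc_co.H13
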