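import Pool.Agent.MP_6574cc_co.H13.Sim

/-! A dense family and a spread family always contain a generalized triangle. -/

namespace Pool.Agent.MP_6574cc_co.H13

open Finset
open scoped Classical

variable {α : Type*} [DecidableEq α]

theorem bonferroni (A : α → Finset (Finset α)) {x : ℝ} (x0 : 0 ≤ x) (R : Finset α)
    (h : ∀ a ∈ R, ∀ b ∈ R, a ≠ b → ((A a ∩ A b).card : ℝ) ≤ x) :
    ∑ a ∈ R, ((A a).card : ℝ) ≤ (R.biUnion A).card + R.card ^ 2 * x := by
  induction R using Finset.induction_on with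
  | empty => simp
  | insert a R ha ih =>
    have h1 := ih fun b hb c hc => h b (mem_insert_of_mem hb) c (mem_insert_of_mem hc)
    have h2 : ((A a ∪ R.biUnion A).card : ℝ) + (A a ∩ R.biUnion A).card =
        (A a).card + (R.biUnion A).card := by exact_mod_cast card_union_add_card_inter _ _
    have h3 : ((A a ∩ R.biUnion A).card : ℝ) ≤ ∑ b ∈ R, ((A a ∩ A b).card : ℝ) := by
      rw [inter_biUnion]
      exact_mod_cast card_biUnion_le
    have h4 := sum_le_card_nsmul R (fun b => ((A a ∩ A b).card : ℝ)) x fun b hb =>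
      h a (mem_insert_self _ _) b (mem_insert_of_mem hb) (fun e => ha (e ▸ hb))
    rw [nsmul_eq_mul] at h4
    rw [sum_insert ha, biUnion_insert, card_insert_of_notMem ha]
    push_cast
    nlinarith [mul_nonneg (Nat.cast_nonneg (α := ℝ) R.card) x0]

theorem sum_inter (F : Finset (Finset α)) (Z : Finset α) :
    ∑ C ∈ F, (C ∩ Z).card = ∑ a ∈ Z, dg F {a} := by
  simp only [dg, card_filter, singleton_subset_iff]
  rw [sum_comm]
  refine sum_congr rfl fun C _ => ?_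
  rw [← card_filter, filter_mem_eq_inter, inter_comm]

theorem Par.kyy2 {k n y : ℕ} (P : Par k n y) : 100000 * y ^ 2 ≤ k := by
  have h1 : y ^ 3 ≤ y ^ 20 := Nat.pow_le_pow_right (by have := P.hy; omega) (by norm_num)
  have h2 := Nat.mul_le_mul_right (y ^ 2) P.hy
  have h3 := P.hk
  have h4 : y * y ^ 2 = y ^ 3 := by ring
  omega

theorem dense_false {k n y s s' : ℕ} (P : Par k n y) {V : Finset α} (hV : V.card = n)
    {L L' : Finset (Finset α)} (hL : L ⊆ powersetCard s V) (hL' : L' ⊆ powersetCard s' V)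
    (hs : k ≤ s + 2 * y) (hs' : k ≤ s' + 2 * y) (ks : s ≤ k) (ks' : s' ≤ k) (hc : Cross L L')
    (hd : (y : ℝ) ^ 5 / (2 * k ^ 2) * nu n s ≤ L.card) (hp : Spr (bt k n) L'.card L')
    (hd' : 1 / (k : ℝ) ^ 4 * nu n s' ≤ L'.card) : False := by
  obtain ⟨z, z1, z2⟩ := P.exists_z
  have k0 := P.kpos
  have n0 := P.npos
  have b0 := P.bt_pos
  have y0 := P.y0
  have y1 := P.hy
  have y2 := P.kyy
  have y3 := P.kyy2
  have k1 := P.k0
  have k2 : (1 : ℝ) ≤ k := by linarith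
  have y4 : (1 : ℝ) ≤ y := by linarith
  have u0 := nu_pos n0 s
  have u1 := nu_pos n0 (s - 1)
  have u2 := nu_pos n0 s'
  have v1 := nu_sub n0 ks 1 (by omega)
  obtain ⟨Z, hZ⟩ : ∃ Z, Z = V.filter fun a => (dg L {a} : ℝ) < y ^ 4 / (8 * k ^ 2) * nu n (s - 1) :=
    ⟨_, rfl⟩
  have h1 : (Z.card : ℝ) ≤ 2 * (y * n / k) := by
    refine le_trans (Nat.cast_le.2 (not_lt.1 fun h => ?_)) z2
    obtain ⟨Z₁, e1, e2⟩ := exists_subset_card_eq h.le
    have e3 := card_le_av' L Z₁ (x := y ^ 4 / (8 * k ^ 2) * nu n (s - 1)) fun a ha =>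
      (mem_filter.1 (hZ ▸ e1 ha)).2.le
    have e4 := (card_le_nu (av_sub hL Z₁)).trans
      (P.nu_far hV (e1.trans (hZ ▸ filter_subset _ _)) (e2 ▸ z1) (by omega))
    have e5 : (Z₁.card : ℝ) * (y ^ 4 / (8 * k ^ 2) * nu n (s - 1)) ≤
        y ^ 5 / (4 * k ^ 2) * nu n s := by
      calc _ ≤ 2 * (y * n / k) * (y ^ 4 / (8 * k ^ 2) * ((k / n) ^ 1 * nu n s)) := by
            rw [e2]
            gcongr
        _ = _ := by
            field_simp
            ring
    have e6 : 1 / (k : ℝ) ^ 10 < y ^ 5 / (4 * k ^ 2) := by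
      rw [div_lt_div_iff₀ (by positivity) (by positivity)]
      have e7 : (k : ℝ) ^ 2 ≤ k ^ 10 := pow_le_pow_right₀ k2 (by norm_num)
      have e8 : (y : ℝ) ≤ y ^ 5 := le_self_pow₀ y4 (by norm_num)
      have e9 : (0 : ℝ) < k ^ 10 := by positivity
      nlinarith only [e7, e8, e9, y0]
    have e7 := mul_lt_mul_of_pos_right e6 u0
    have e8 : (y : ℝ) ^ 5 / (2 * k ^ 2) = 2 * (y ^ 5 / (4 * k ^ 2)) := by field_simp; ring
    rw [e8] at hd
    linarith
  obtain ⟨x, hx⟩ : ∃ x, x = 1 / (k : ℝ) ^ 10 * nu n (s - 1) := ⟨_, rfl⟩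
  have yk : (y : ℝ) ^ 4 ≤ k ^ 2 := (P.ky 4 (by norm_num)).trans (le_self_pow₀ k2 (by norm_num))
  have m1 : (1 : ℝ) ≤ 24 * k ^ 2 / y ^ 4 := by
    rw [le_div_iff₀ (by positivity)]
    nlinarith only [yk, k2]
  obtain ⟨M, hM⟩ : ∃ M, M = ⌊24 * (k : ℝ) ^ 2 / y ^ 4⌋₊ := ⟨_, rfl⟩
  have m2 : (M : ℝ) ≤ 24 * k ^ 2 / y ^ 4 := hM ▸ Nat.floor_le (by positivity)
  have m3 : 24 * (k : ℝ) ^ 2 / y ^ 4 < M + 1 := hM ▸ Nat.lt_floor_add_one _
  have m4 : 0 < M := hM ▸ Nat.floor_pos.2 m1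
  have h2 : ∀ R ⊆ V \ Z, H69.Indep (fun a b => a = b ∨ Sim x L a b) R → R.card ≤ M := by
    intro R hR hi
    by_contra h
    obtain ⟨R', e1, e2⟩ := exists_subset_card_eq (show M + 1 ≤ R.card by omega)
    have e3 := bonferroni (fun a => lk L {a}) (x := x) (by rw [hx]; positivity) R'
      fun a ha b hb hab => (not_le.1 fun e => hab (hi a (e1 ha) b (e1 hb) (Or.inr ⟨hab, e⟩))).le
    have e4 : ((R'.biUnion fun a => lk L {a}).card : ℝ) ≤ nu n (s - 1) := by
      rw [← hV]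
      exact card_le_nu (biUnion_subset.2 fun a _ => by simpa using lk_sub hL {a})
    have e5 := card_nsmul_le_sum R' (fun a => ((lk L {a}).card : ℝ))
      (y ^ 4 / (8 * k ^ 2) * nu n (s - 1)) fun a ha => by
        obtain ⟨a1, a2⟩ := mem_sdiff.1 (hR (e1 ha))
        rw [card_lk]
        exact not_lt.1 fun e => a2 (hZ ▸ mem_filter.2 ⟨a1, e⟩)
    rw [nsmul_eq_mul] at e5
    rw [e2, Nat.cast_add, Nat.cast_one] at e3 e5
    have e6 : 3 ≤ ((M : ℝ) + 1) * (y ^ 4 / (8 * k ^ 2)) := by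
      rw [div_lt_iff₀ (by positivity)] at m3
      rw [← mul_div_assoc, le_div_iff₀ (by positivity)]
      linarith
    have e7 : (M : ℝ) + 1 ≤ k ^ 2 := by
      have e8 : 24 * (k : ℝ) ^ 2 / y ^ 4 ≤ k ^ 2 / 2 := by
        rw [div_le_div_iff₀ (by positivity) (by positivity)]
        have e9 : (y : ℝ) ≤ y ^ 4 := le_self_pow₀ y4 (by norm_num)
        nlinarith only [sq_nonneg (k : ℝ), e9, y0]
      nlinarith only [e8, m2, k1, y0]
    have e8 : ((M : ℝ) + 1) ^ 2 * (1 / (k : ℝ) ^ 10) ≤ 1 := by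
      rw [mul_one_div, div_le_one (by positivity)]
      refine (pow_le_pow_left₀ (by positivity) e7 2).trans ?_
      rw [← pow_mul]
      exact pow_le_pow_right₀ k2 (by norm_num)
    have e9 := mul_le_mul_of_nonneg_right e6 u1.le
    have e10 := mul_le_mul_of_nonneg_right e8 u1.le
    rw [hx] at e3
    nlinarith only [e3, e4, e5, e9, e10, u1]
  have l0 : (0 : ℝ) < L'.card := lt_of_lt_of_le (by positivity) hd'
  have h3 : ∑ C ∈ L', (((rr x L C).card + (C ∩ Z).card : ℕ) : ℝ) ≤ 4 * y ^ 2 * L'.card := by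
    have e1 := sum_rr P hV hL hL' hs hs' ks ks' hc l0.le fun S hS => hS ▸ hp S
    have e2 := sum_le_card_nsmul Z (fun a => (dg L' {a} : ℝ)) (bt k n * L'.card) fun a _ => by
      simpa using hp {a}
    rw [nsmul_eq_mul, ← Nat.cast_sum, ← sum_inter, Nat.cast_sum] at e2
    have e3 : (Z.card : ℝ) * (bt k n * L'.card) ≤ 3 * y * L'.card := by
      calc _ ≤ 2 * (y * n / k) * (bt k n * L'.card) := by gcongr
        _ = 202 / 100 * y * L'.card := by
            unfold bt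
            field_simp
            ring
        _ ≤ _ := by gcongr; norm_num
    have e4 : (k : ℝ) * (k / n) ≤ 10 / 9 := by
      have := P.p_le
      rw [le_div_iff₀ k0] at this
      linarith
    have e5 : 3 * y * k * (1 / (k : ℝ) ^ 10) * nu n s' ≤ y * L'.card := by
      refine le_trans ?_ (mul_le_mul_of_nonneg_left hd' (by positivity))
      rw [← mul_assoc]
      refine mul_le_mul_of_nonneg_right ?_ u2.le
      rw [mul_one_div, mul_one_div, div_le_div_iff₀ (by positivity) (by positivity)]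
      have e6 : (k : ℝ) ^ 6 ≤ k ^ 10 := pow_le_pow_right₀ k2 (by norm_num)
      calc 3 * (y : ℝ) * k * k ^ 4 ≤ k * y * k * k ^ 4 := by gcongr; linarith
        _ = (y : ℝ) * k ^ 6 := by ring
        _ ≤ _ := by gcongr
    have e6 := mul_le_mul_of_nonneg_left e4 (show (0 : ℝ) ≤ y ^ 2 * L'.card by positivity)
    have e7 := mul_le_mul_of_nonneg_left y0 (show (0 : ℝ) ≤ y * L'.card by positivity)
    have e8 : (0 : ℝ) ≤ y * L'.card := by positivity
    rw [← hx] at e1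
    push_cast
    rw [sum_add_distrib]
    nlinarith only [e1, e2, e3, e5, e6, e7, e8]
  obtain ⟨G, hG⟩ : ∃ G, G = L'.filter fun C => (rr x L C).card + (C ∩ Z).card ≤ 8 * y ^ 2 :=
    ⟨_, rfl⟩
  have h4 : (L'.card : ℝ) ≤ 2 * G.card := by
    have e1 := card_nsmul_le_sum (L'.filter fun C => ¬ (rr x L C).card + (C ∩ Z).card ≤ 8 * y ^ 2)
      (fun C => (((rr x L C).card + (C ∩ Z).card : ℕ) : ℝ)) (8 * y ^ 2) fun C hC => by
        exact_mod_cast (not_le.1 (mem_filter.1 hC).2).le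
    have e2 := (e1.trans (sum_le_sum_of_subset_of_nonneg (filter_subset _ _)
      fun _ _ _ => Nat.cast_nonneg _)).trans h3
    have e3 := card_filter_add_card_filter_not (s := L')
      fun C => (rr x L C).card + (C ∩ Z).card ≤ 8 * y ^ 2
    rw [← hG] at e3
    have e4 := congrArg (Nat.cast : ℕ → ℝ) e3
    rw [nsmul_eq_mul] at e2
    push_cast at e4
    refine le_of_mul_le_mul_left ?_ (show (0 : ℝ) < 4 * y ^ 2 by positivity)
    rw [← e4] at e2 ⊢
    linarith only [e2]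
  have h5 : G ⊆ image₂ (· ∪ ·) (powersetCard (8 * y ^ 2) V)
      (H69.Ind (fun a b => a = b ∨ Sim x L a b) (V \ Z) (s' - 8 * y ^ 2)) := by
    intro C hC
    obtain ⟨c1, c2⟩ := mem_filter.1 (hG ▸ hC)
    obtain ⟨c3, c4⟩ := mem_powersetCard.1 (hL' c1)
    obtain ⟨E, e1, e2, e3⟩ := exists_subsuperset_card_eq (s := rr x L C ∪ C ∩ Z) (t := C)
      (union_subset (filter_subset _ _) inter_subset_left) ((card_union_le _ _).trans c2) (by omega)
    refine mem_image₂.2 ⟨E, mem_powersetCard.2 ⟨e2.trans c3, e3⟩, C \ E, H69.mem_Ind.2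
      ⟨fun a ha => ?_, by rw [card_sdiff_of_subset e2, c4, e3], ?_⟩, union_sdiff_of_subset e2⟩
    · obtain ⟨a1, a2⟩ := mem_sdiff.1 ha
      exact mem_sdiff.2 ⟨c3 a1, fun e => a2 (e1 (mem_union_right _ (mem_inter.2 ⟨a1, e⟩)))⟩
    · rintro a ha b hb (e | e)
      · exact e
      · obtain ⟨a1, a2⟩ := mem_sdiff.1 ha
        exact absurd (e1 (mem_union_left _ (mem_filter.2 ⟨a1, b, (mem_sdiff.1 hb).1, e⟩))) a2
  have hsy : ∀ a b, (a = b ∨ Sim x L a b) → (b = a ∨ Sim x L b a) :=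
    fun a b h => h.imp Eq.symm Sim.symm
  have h6 := H69.zykov (T := fun a b => a = b ∨ Sim x L a b) (fun a => Or.inl rfl) hsy hsy
    (fun _ _ h => h) (V \ Z) M m4 h2 0 0 (V \ Z).card le_rfl le_rfl (s' - 8 * y ^ 2) (V \ Z)
    Subset.rfl (Or.inl rfl)
  obtain ⟨j, hj⟩ : ∃ j, j = s' - 8 * y ^ 2 := ⟨_, rfl⟩
  rw [← hj] at h5 h6
  have h7 : Real.exp (-(j * (j - 1) / 2 * (1 / M + 0))) ≤ (1 / (k : ℝ) ^ 10) ^ (y ^ 2) := by
    refine le_trans ?_ (pow_le_pow_left₀ (Real.exp_pos _).le (P.exp_le le_rfl) _)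
    rw [← Real.exp_nat_mul, Real.exp_le_exp, mul_neg, neg_le_neg_iff, add_zero, mul_one_div,
      le_div_iff₀ (by exact_mod_cast m4)]
    have e1 : (k : ℝ) + 2 ≤ 2 * j := by exact_mod_cast (show k + 2 ≤ 2 * j by omega)
    push_cast
    calc (y : ℝ) ^ 2 * (y / 2) * M ≤ y ^ 2 * (y / 2) * (24 * k ^ 2 / y ^ 4) := by gcongr
      _ = 12 / (y : ℝ) * k ^ 2 := by field_simp; ring
      _ ≤ 1 / 8 * (k : ℝ) ^ 2 := by
          gcongr ?_ * _
          rw [div_le_div_iff₀ (by positivity) (by positivity)]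
          linarith
      _ ≤ _ := by nlinarith only [e1, k0]
  have h8 : ((H69.Ind (fun a b => a = b ∨ Sim x L a b) (V \ Z) j).card : ℝ) ≤
      nu n j * (1 / (k : ℝ) ^ 10) ^ (y ^ 2) := by
    have e1 : ((V \ Z).card : ℝ) ≤ n := by exact_mod_cast hV ▸ card_le_card sdiff_subset
    rw [nu, div_mul_eq_mul_div, le_div_iff₀' (by positivity)]
    refine h6.trans ?_
    gcongr
  have h9 : (G.card : ℝ) ≤ nu n (8 * y ^ 2) * (nu n j * (1 / (k : ℝ) ^ 10) ^ (y ^ 2)) := by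
    have e1 := (card_le_card h5).trans (card_image₂_le _ _ _)
    have e2 := card_le_nu (Subset.refl (powersetCard (8 * y ^ 2) V))
    rw [hV] at e2
    refine le_trans (by exact_mod_cast e1) (mul_le_mul e2 h8 (Nat.cast_nonneg _) (nu_nonneg n0.le _))
  rw [← mul_assoc, nu_mul, show 8 * y ^ 2 + j = s' by omega] at h9
  have h10 : (s'.choose (8 * y ^ 2) : ℝ) ≤ k ^ (8 * y ^ 2) := by
    exact_mod_cast (Nat.choose_le_pow _ _).trans (Nat.pow_le_pow_left ks' _)
  have h11 : 1 / (k : ℝ) ^ 4 ≤ 2 * (k ^ (8 * y ^ 2) * (1 / (k : ℝ) ^ 10) ^ (y ^ 2)) := by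
    refine le_of_mul_le_mul_right (hd'.trans (h4.trans ?_)) u2
    calc 2 * (G.card : ℝ) ≤ 2 * (k ^ (8 * y ^ 2) * nu n s' * (1 / (k : ℝ) ^ 10) ^ (y ^ 2)) := by
          gcongr
          exact h9.trans (by gcongr)
      _ = _ := by ring
  rw [one_div_pow, ← pow_mul, mul_one_div, ← mul_div_assoc,
    div_le_div_iff₀ (by positivity) (by positivity), one_mul, mul_assoc, ← pow_add] at h11
  have h12 : (k : ℝ) ^ (8 * y ^ 2 + 4 + 1) ≤ k ^ (10 * y ^ 2) :=
    pow_le_pow_right₀ k2 (by nlinarith only [y1])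
  rw [pow_succ] at h12
  have h13 : (0 : ℝ) < k ^ (8 * y ^ 2 + 4) := by positivity
  nlinarith only [h11, h12, h13, k1, y0]

theorem core_big {k n y s s' : ℕ} (P : Par k n y) {V : Finset α} (hV : V.card = n)
    {F F' : Finset (Finset α)} (hF : F ⊆ powersetCard s V) (hF' : F' ⊆ powersetCard s' V)
    (hs : k ≤ s + 1) (hs' : k ≤ s' + 1) (ks : s ≤ k) (ks' : s' ≤ k) (hc : Cross F F')
    {T : Finset α} (hT : Core k n y s F T)
    (hd : (y : ℝ) ^ 5 / k ^ 2 * nu n (s - T.card) ≤ (lk F T).card) :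
    ((av F' T).card : ℝ) < 1 / (k : ℝ) ^ 4 * nu n s' := by
  refine not_le.1 fun h => ?_
  have k0 := P.kpos
  have k1 := P.k0
  have y0 := P.y0
  have y1 := P.hy
  have hJ := (av_subset F' T).trans hF'
  have e1 : 1 / (k : ℝ) ^ 10 ≤ 1 / k ^ 4 :=
    one_div_le_one_div_of_le (by positivity) (pow_le_pow_right₀ (by linarith) (by norm_num))
  obtain ⟨T', hT'⟩ := exists_core P hV hJ ks'
    ((mul_le_mul_of_nonneg_right e1 (nu_pos P.npos s').le).trans h)
  have s1 := (hT.spr P).av P hT'.sm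
  have t1 := hT.sm
  have t2 := hT'.sm
  refine dense_false P hV ((av_subset _ T').trans (lk_sub hF T)) (lk_sub hJ T') (by omega)
    (by omega) (by omega) (by omega)
    ((hc.mono Subset.rfl (av_subset F' T)).lk fun C hC => (mem_av.1 hC).2) ?_ (hT'.spr P)
    (hT'.den' P h)
  have e2 : (y : ℝ) ^ 5 / k ^ 2 = 2 * (y ^ 5 / (2 * k ^ 2)) := by field_simp
  rw [e2] at hd
  linarith [Nat.cast_nonneg (α := ℝ) (av (lk F T) T').card]

end Pool.Agent.MP_6574cc_co.H13
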