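import Pool.Agent.MP_6574cc_co.H13.Star

/-! The eigenvalue bound for small ground sets. -/

namespace Pool.Agent.MP_6574cc_co.H13

open Finset
open scoped Classical

variable {α : Type*} [DecidableEq α]

theorem cnt_trace {V R Q : Finset α} (hQ : Q ⊆ R) (hR : R ⊆ V) {k t : ℕ}
    (ht : V.card - R.card + Q.card = k + t) :
    ((powersetCard k V).filter fun X => X ∩ R = Q).card = (V.card - R.card).choose t := by
  by_cases hk : Q.card ≤ k
  · rw [← Nat.choose_symm_of_eq_add (show V.card - R.card = k - Q.card + t by omega),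
      ← card_sdiff_of_subset hR, ← card_powersetCard]
    refine card_bij' (fun X _ => X \ R) (fun Z _ => Z ∪ Q) (fun X hX => ?_) (fun Z hZ => ?_)
      (fun X hX => ?_) fun Z hZ => ?_
    · obtain ⟨h1, h2⟩ := mem_filter.1 hX
      obtain ⟨h3, h4⟩ := mem_powersetCard.1 h1
      have := card_sdiff_add_card_inter X R
      rw [h2] at this
      exact mem_powersetCard.2 ⟨sdiff_subset_sdiff h3 Subset.rfl, by omega⟩
    · obtain ⟨h1, h2⟩ := mem_powersetCard.1 hZ
      obtain ⟨h3, h4⟩ := subset_sdiff.1 h1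
      refine mem_filter.2 ⟨mem_powersetCard.2 ⟨union_subset h3 (hQ.trans hR), ?_⟩, ?_⟩
      · rw [card_union_of_disjoint (h4.mono_right hQ)]
        omega
      · rw [union_inter_distrib_right, disjoint_iff_inter_eq_empty.1 h4, empty_union,
          inter_eq_left.2 hQ]
    · rw [← (mem_filter.1 hX).2, sdiff_union_inter]
    · rw [union_sdiff_distrib, sdiff_eq_empty_iff_subset.2 hQ, union_empty,
        (subset_sdiff.1 (mem_powersetCard.1 hZ).1).2.sdiff_eq_left]
  · rw [Nat.choose_eq_zero_of_lt (by omega), card_eq_zero, filter_eq_empty_iff]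
    intro X hX e
    exact hk (e ▸ (mem_powersetCard.1 hX).2 ▸ card_le_card inter_subset_left)

theorem cnt_one {V S Y : Finset α} {k x : ℕ} (hx : V.card + 1 = 2 * k + x) (hS : S ⊆ V)
    (hY : Y ∈ powersetCard k V) :
    ((powersetCard k V).filter fun X => S ⊆ X ∧ (X ∩ Y).card = 1).card =
      (if Disjoint Y S then k * (V.card - (k + S.card)).choose x else 0) +
        ∑ s ∈ S, if {s} ⊆ Y ∧ Disjoint Y (S.erase s) then
          (V.card + 1 - (k + S.card)).choose x else 0 := by
  obtain ⟨y1, y2⟩ := mem_powersetCard.1 hY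
  have h1 : ((powersetCard k V).filter fun X => S ⊆ X ∧ (X ∩ Y).card = 1) =
      Y.biUnion fun y => (powersetCard k V).filter fun X => S ⊆ X ∧ X ∩ Y = {y} := by
    ext X
    simp only [mem_filter, mem_biUnion, card_eq_one]
    constructor
    · rintro ⟨a, b, y, c⟩
      exact ⟨y, inter_subset_right (c ▸ mem_singleton_self y), a, b, c⟩
    · rintro ⟨y, -, a, b, c⟩
      exact ⟨a, b, y, c⟩
  have h2 : ∀ y ∈ Y, ((powersetCard k V).filter fun X => S ⊆ X ∧ X ∩ Y = {y}).card =
      if Disjoint Y (S.erase y) then (V.card - (k + (S.erase y).card)).choose x else 0 := by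
    intro y hy
    split_ifs with hd
    · have e1 : (Y ∪ S.erase y).card = k + (S.erase y).card := by rw [card_union_of_disjoint hd, y2]
      have e2 : Y ∪ S.erase y ⊆ V := union_subset y1 ((erase_subset _ _).trans hS)
      have e3 := card_le_card e2
      rw [← e1, ← cnt_trace (Q := insert y (S.erase y)) (k := k)
        (insert_subset (mem_union_left _ hy) subset_union_right) e2
        (by rw [card_insert_of_notMem (notMem_erase _ _)]; omega)]
      congr 1
      refine filter_congr fun X _ => ⟨fun ⟨a, b⟩ => ?_, fun a => ⟨fun s hs => ?_, ?_⟩⟩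
      · rw [inter_union_distrib_left, b, inter_eq_right.2 ((erase_subset _ _).trans a), insert_eq]
      · refine inter_subset_left (s₂ := Y ∪ S.erase y) ?_
        rw [a]
        by_cases e : s = y <;> simp [e, hs]
      · have := congrArg (· ∩ Y) a
        simp only [inter_assoc, union_inter_cancel_left] at this
        rw [this, insert_inter_of_mem hy, disjoint_iff_inter_eq_empty.1 hd.symm]
        rfl
    · rw [card_eq_zero, filter_eq_empty_iff]
      rintro X - ⟨a, b⟩
      refine hd (disjoint_left.2 fun s h1 h2 => (mem_erase.1 h2).1 ?_)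
      exact mem_singleton.1 (b ▸ mem_inter.2 ⟨a (mem_erase.1 h2).2, h1⟩)
  rw [h1, card_biUnion fun a _ b _ hab => disjoint_left.2 fun X h3 h4 => hab
    (singleton_injective ((mem_filter.1 h3).2.2.symm.trans (mem_filter.1 h4).2.2)),
    sum_congr rfl h2, ← sum_inter_add_sum_sdiff Y S, add_comm]
  congr 1
  · rw [sum_congr rfl fun y hy => by rw [erase_eq_of_notMem (mem_sdiff.1 hy).2], sum_const]
    split_ifs with hd
    · rw [hd.sdiff_eq_left, y2, smul_eq_mul]
    · rfl
  · rw [inter_comm, ← filter_mem_eq_inter, sum_filter]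
    refine sum_congr rfl fun s hs => ?_
    have := card_erase_add_one hs
    rw [show V.card + 1 - (k + S.card) = V.card - (k + (S.erase s).card) by omega]
    simp only [singleton_subset_iff, ite_and]

theorem alt_sum {P : Finset (Finset α)} (f : Finset α → ℝ) {j : ℕ}
    (h : ∀ S : Finset α, S.card < j → ∑ Y ∈ P, (if S ⊆ Y then f Y else 0) = 0) (N : Finset α) :
    ∀ E : Finset α, Disjoint E N → E.card + N.card ≤ j →
      ∑ Y ∈ P, (if E ⊆ Y ∧ Disjoint Y N then f Y else 0) =
        (-1) ^ N.card * ∑ Y ∈ P, (if E ∪ N ⊆ Y then f Y else 0) := by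
  induction N using Finset.induction_on with
  | empty => intro E _ _; simp
  | insert t N ht ih =>
    intro E hd hj
    rw [card_insert_of_notMem ht] at hj ⊢
    obtain ⟨d1, d2⟩ := disjoint_insert_right.1 hd
    have h1 := ih E d2 (by omega)
    have h2 := ih (insert t E) (disjoint_insert_left.2 ⟨ht, d2⟩)
      (by rw [card_insert_of_notMem d1]; omega)
    rw [h _ ((card_union_le _ _).trans_lt (by omega)), mul_zero] at h1
    rw [insert_union, ← union_insert] at h2
    rw [pow_succ, mul_neg_one, neg_mul, ← h2, eq_neg_iff_add_eq_zero, ← sum_add_distrib]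
    refine (sum_congr rfl fun Y _ => ?_).trans h1
    by_cases a : E ⊆ Y <;> by_cases b : Disjoint Y N <;> by_cases c : t ∈ Y <;>
      simp [a, b, c, insert_subset_iff]

theorem eig_ineq {x r j m : ℕ} (hx : x + 1 + 2 * r ≤ r * r) (hj : 1 ≤ j) (hm : m + j = r + 1) :
    ((x + (r + 1)).choose (x + 1) : ℝ) - (r + 1) * (x + r).choose (x + 1) ≤
      (-1) ^ j * ((r + 1) * (x + m).choose (x + 1) - j * (x + (m + 1)).choose (x + 1)) := by
  have pas : ∀ i, ((x + (i + 1)).choose (x + 1) : ℝ) = (x + i).choose (x + 1) + (x + i).choose x := by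
    intro i
    rw [← add_assoc, Nat.choose_succ_succ']
    push_cast
    ring
  have rat : ∀ i, ((x + i).choose (x + 1) : ℝ) * (x + 1) = (x + i).choose x * i := by
    intro i
    have := Nat.choose_succ_right_eq (x + i) x
    rw [Nat.add_sub_cancel_left] at this
    exact_mod_cast this
  have hoc : ∀ i : ℕ, ((x + m).choose (x + 1) : ℝ) + i * (x + m).choose x ≤
      (x + (m + i)).choose (x + 1) := by
    intro i
    induction i with
    | zero => simp
    | succ i ih =>
      have : ((x + m).choose x : ℝ) ≤ (x + (m + i)).choose x := by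
        exact_mod_cast Nat.choose_le_choose x (by omega)
      rw [← add_assoc m, pas]
      push_cast
      linarith
  obtain ⟨i, rfl⟩ : ∃ i, j = i + 1 := ⟨j - 1, by omega⟩
  have h1 := hoc i
  rw [show m + i = r by omega] at h1
  have h2 := rat r
  have h3 := rat m
  have hx' : (x : ℝ) + 1 + 2 * r ≤ r * r := by exact_mod_cast hx
  have hm' : (m : ℝ) + i = r := by exact_mod_cast (show m + i = r by omega)
  have r0 : (0 : ℝ) < r := by
    have : 0 < r := Nat.pos_of_ne_zero fun e => by simp [e] at hx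
    exact_mod_cast this
  have i0 : (0 : ℝ) ≤ i := Nat.cast_nonneg i
  have x0 : (0 : ℝ) ≤ x := Nat.cast_nonneg x
  have a0 : (0 : ℝ) ≤ (x + m).choose (x + 1) := Nat.cast_nonneg _
  have b0 : (0 : ℝ) ≤ (x + m).choose x := Nat.cast_nonneg _
  rw [pas, pas]
  push_cast
  generalize ((x + m).choose (x + 1) : ℝ) = a at *
  generalize ((x + m).choose x : ℝ) = b at *
  generalize ((x + r).choose (x + 1) : ℝ) = A at *
  generalize ((x + r).choose x : ℝ) = B at *
  have ib := mul_nonneg i0 b0
  have ia := mul_nonneg i0 a0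
  refine le_of_mul_le_mul_right ?_ r0
  rcases Nat.even_or_odd (i + 1) with h | h
  · have i1 : (1 : ℝ) ≤ i := by
      obtain ⟨l, hl⟩ := h
      exact_mod_cast (show 1 ≤ i by omega)
    have e1 := mul_le_mul_of_nonneg_left hx' (show 0 ≤ A by linarith)
    have e2 : (i + 1) * (a + b) - (r + 1) * a ≤ 2 * A := by nlinarith [Nat.cast_nonneg (α := ℝ) m]
    have e3 := mul_le_mul_of_nonneg_right e2 r0.le
    rw [h.neg_one_pow]
    nlinarith
  · have e1 := mul_le_mul_of_nonneg_left (show x + 1 ≤ (r : ℝ) * r by linarith)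
      (show 0 ≤ A - a by linarith)
    have e2 := mul_nonneg (add_nonneg ia ib) r0.le
    rw [h.neg_one_pow]
    nlinarith

theorem few_neighbours {V : Finset α} {k : ℕ} {H : Finset (Finset α)} (hH : H ⊆ powersetCard k V)
    (hc : Cross H H) {X : Finset α} (hX : X ∈ H) :
    (H.filter fun Y => (X ∩ Y).card = 1).card ≤ (V.card - k).choose (k - 1) := by
  obtain ⟨x1, x2⟩ := mem_powersetCard.1 (hH hX)
  rw [← x2, ← card_sdiff_of_subset x1, x2, ← card_powersetCard]
  refine card_le_card_of_injOn (fun Y => Y \ X) (fun Y hY => ?_) fun Y hY Y' hY' e => ?_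
  · obtain ⟨h1, h2⟩ := mem_filter.1 (mem_coe.1 hY)
    obtain ⟨h3, h4⟩ := mem_powersetCard.1 (hH h1)
    have := card_sdiff_add_card_inter Y X
    rw [inter_comm] at this
    exact mem_coe.2 (mem_powersetCard.2 ⟨sdiff_subset_sdiff h3 Subset.rfl,
      show (Y \ X).card = k - 1 by omega⟩)
  · obtain ⟨h1, h2⟩ := mem_filter.1 (mem_coe.1 hY)
    obtain ⟨h3, h4⟩ := mem_filter.1 (mem_coe.1 hY')
    obtain ⟨a, ha⟩ := card_eq_one.1 h2
    obtain ⟨b, hb⟩ := card_eq_one.1 h4
    have e1 : Y = insert a (Y \ X) := by rw [insert_eq, ← ha, inter_comm, union_comm, sdiff_union_inter]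
    have e2 : Y' = insert b (Y \ X) := by
      rw [show Y \ X = Y' \ X from e, insert_eq, ← hb, inter_comm, union_comm, sdiff_union_inter]
    have a1 : a ∈ X := inter_subset_left (ha ▸ mem_singleton_self a)
    have b1 : b ∈ X := inter_subset_left (hb ▸ mem_singleton_self b)
    by_cases hab : a = b
    · rw [e1, e2, hab]
    · exact (hc (Y \ X) a b hab (by simp [a1]) (by simp [b1]) (e1 ▸ h1) (e2 ▸ h3) X hX a1 b1
        disjoint_sdiff).elim

theorem eig_form {V : Finset α} {k x : ℕ} (hx : V.card + 1 = 2 * k + x) (f : Finset α → ℝ)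
    (c μ : ℝ) (hf : ∀ X ∈ powersetCard k V,
      ∑ Y ∈ powersetCard k V, ((if (X ∩ Y).card = 1 then 1 else 0) - c) * f Y = μ * f X)
    (hne : ∃ X ∈ powersetCard k V, f X ≠ 0) :
    μ = k * (V.card - k).choose x - c * V.card.choose k ∨ ∃ j, 1 ≤ j ∧ j ≤ k ∧
      μ = (-1) ^ j * (k * (V.card - (k + j)).choose x - j * (V.card + 1 - (k + j)).choose x) := by
  have ex : ∃ j, ∃ S : Finset α, S.card = j ∧
      ∑ Y ∈ powersetCard k V, (if S ⊆ Y then f Y else 0) ≠ 0 := by
    obtain ⟨X, h1, h2⟩ := hne
    refine ⟨_, X, rfl, ?_⟩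
    rwa [sum_eq_single_of_mem X h1 fun Y hY e => if_neg fun h => e (eq_of_subset_of_card_le h
      ((mem_powersetCard.1 hY).2.trans (mem_powersetCard.1 h1).2.symm).le).symm, if_pos Subset.rfl]
  obtain ⟨S, s1, s2⟩ := Nat.find_spec ex
  have h0 : ∀ S' : Finset α, S'.card < S.card →
      ∑ Y ∈ powersetCard k V, (if S' ⊆ Y then f Y else 0) = 0 := fun S' h =>
    by_contra fun e => Nat.find_min ex (s1 ▸ h) ⟨S', rfl, e⟩
  obtain ⟨X₀, x1, x2⟩ := exists_ne_zero_of_sum_ne_zero s2
  have x3 : S ⊆ X₀ := by_contra fun e => x2 (if_neg e)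
  have hS := x3.trans (mem_powersetCard.1 x1).1
  have h1 : ∑ X ∈ powersetCard k V, (if S ⊆ X then ∑ Y ∈ powersetCard k V,
      ((if (X ∩ Y).card = 1 then 1 else 0) - c) * f Y else 0) =
      μ * ∑ Y ∈ powersetCard k V, (if S ⊆ Y then f Y else 0) := by
    rw [mul_sum]
    refine sum_congr rfl fun X hX => ?_
    rw [hf X hX, mul_ite, mul_zero]
  have h2 : ∑ X ∈ powersetCard k V, (if S ⊆ X then ∑ Y ∈ powersetCard k V,
      ((if (X ∩ Y).card = 1 then 1 else 0) - c) * f Y else 0) =
      ∑ Y ∈ powersetCard k V,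
        (((powersetCard k V).filter fun X => S ⊆ X ∧ (X ∩ Y).card = 1).card : ℝ) * f Y -
        c * dg (powersetCard k V) S * ∑ Y ∈ powersetCard k V, f Y := by
    simp only [dg, card_filter, mul_sum, sum_mul, Nat.cast_sum, ← sum_sub_distrib]
    rw [sum_comm]
    refine sum_congr rfl fun X _ => ?_
    split_ifs with h <;> simp [h, sub_mul]
  have h3 : ∑ Y ∈ powersetCard k V,
      (((powersetCard k V).filter fun X => S ⊆ X ∧ (X ∩ Y).card = 1).card : ℝ) * f Y =
      (-1) ^ S.card * (k * (V.card - (k + S.card)).choose x -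
        S.card * (V.card + 1 - (k + S.card)).choose x) *
        ∑ Y ∈ powersetCard k V, (if S ⊆ Y then f Y else 0) := by
    have e1 := alt_sum f h0 S ∅ (disjoint_empty_left _) (by simp)
    have e2 : ∀ s ∈ S, ∑ Y ∈ powersetCard k V, (if {s} ⊆ Y ∧ Disjoint Y (S.erase s) then f Y
        else 0) = -(-1) ^ S.card * ∑ Y ∈ powersetCard k V, (if S ⊆ Y then f Y else 0) := by
      intro s hs
      have e3 := card_erase_add_one hs
      rw [alt_sum f h0 (S.erase s) {s} (by simp) (by rw [card_singleton]; omega), ← insert_eq,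
        insert_erase hs, ← e3, pow_succ]
      ring
    have e3 := sum_congr rfl e2
    simp only [empty_subset, true_and, empty_union] at e1
    rw [sum_const, nsmul_eq_mul, sum_comm] at e3
    calc _ = ∑ Y ∈ powersetCard k V, ((k * (V.card - (k + S.card)).choose x : ℝ) *
          (if Disjoint Y S then f Y else 0) + (V.card + 1 - (k + S.card)).choose x *
          ∑ s ∈ S, if {s} ⊆ Y ∧ Disjoint Y (S.erase s) then f Y else 0) := by
          refine sum_congr rfl fun Y hY => ?_
          rw [cnt_one hx hS hY]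
          simp [add_mul, sum_mul, mul_sum]
      _ = _ := by
          rw [sum_add_distrib, ← mul_sum, ← mul_sum, e1, e3]
          ring
  rw [h2, h3] at h1
  rcases Nat.eq_zero_or_pos S.card with h | h
  · left
    rw [card_eq_zero.1 h] at h1 s2
    simp only [empty_subset, if_true, dg_empty, card_powersetCard, card_empty] at h1 s2
    refine mul_right_cancel₀ s2 ?_
    rw [← h1]
    simp [sub_mul]
  · right
    have e1 := h0 ∅ h
    simp only [empty_subset, if_true] at e1
    rw [e1, mul_zero, sub_zero] at h1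
    exact ⟨S.card, h, (mem_powersetCard.1 x1).2 ▸ card_le_card x3, (mul_right_cancel₀ s2 h1).symm⟩

theorem hoffman {V : Finset α} {k x : ℕ} (hx : V.card + 1 = 2 * k + x) (c l : ℝ)
    (h0 : l ≤ k * (V.card - k).choose x - c * V.card.choose k)
    (h1 : ∀ j, 1 ≤ j → j ≤ k →
      l ≤ (-1) ^ j * (k * (V.card - (k + j)).choose x - j * (V.card + 1 - (k + j)).choose x))
    {H : Finset (Finset α)} (hH : H ⊆ powersetCard k V) :
    c * H.card ^ 2 + l * H.card ≤ ∑ X ∈ H, ((H.filter fun Y => (X ∩ Y).card = 1).card : ℝ) := by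
  obtain ⟨M, hM⟩ : ∃ M : Matrix (powersetCard k V) (powersetCard k V) ℝ, M = Matrix.of fun X Y =>
    (if (X.1 ∩ Y.1).card = 1 then 1 else 0) - c - if X = Y then l else 0 := ⟨_, rfl⟩
  have key : ∀ (f : Finset α → ℝ) (X : powersetCard k V), M.mulVec (fun Y => f Y.1) X =
      ∑ Y ∈ powersetCard k V, ((if (X.1 ∩ Y).card = 1 then 1 else 0) - c) * f Y - l * f X := by
    intro f X
    rw [← sum_coe_sort (powersetCard k V)]
    simp [hM, Matrix.mulVec, dotProduct, sub_mul]
  have hs : M.IsHermitian := by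
    ext X Y
    simp [hM, inter_comm, eq_comm]
  have hp : M.PosSemidef := by
    refine hs.posSemidef_iff_eigenvalues_nonneg.2 fun i => ?_
    obtain ⟨f, hf⟩ : ∃ f : Finset α → ℝ, ⇑(hs.eigenvectorBasis i) = fun Y => f Y.1 :=
      ⟨fun Y => if h : Y ∈ powersetCard k V then hs.eigenvectorBasis i ⟨Y, h⟩ else 0, by
        ext Y
        simp only [dif_pos Y.2]⟩
    have e1 := hs.mulVec_eigenvectorBasis i
    rw [hf] at e1
    have e2 := eig_form hx f c (hs.eigenvalues i + l) (fun X hX => by
      have := congrFun e1 ⟨X, hX⟩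
      rw [key, Pi.smul_apply, smul_eq_mul] at this
      linarith) (by
        by_contra h
        refine hs.eigenvectorBasis.orthonormal.ne_zero i ?_
        ext Y
        rw [hf]
        exact by_contra fun e => h ⟨Y, Y.2, e⟩)
    rcases e2 with e | ⟨j, a, b, e⟩
    · change 0 ≤ hs.eigenvalues i
      linarith
    · change 0 ≤ hs.eigenvalues i
      linarith [h1 j a b]
  have h2 := hp.dotProduct_mulVec_nonneg fun Y => if Y.1 ∈ H then 1 else 0
  simp only [dotProduct, key fun Y => if Y ∈ H then 1 else 0, star_trivial] at h2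
  rw [sum_coe_sort (powersetCard k V) fun X => (if X ∈ H then (1 : ℝ) else 0) *
    (∑ Y ∈ powersetCard k V, ((if (X ∩ Y).card = 1 then 1 else 0) - c) * (if Y ∈ H then 1 else 0) -
      l * if X ∈ H then 1 else 0)] at h2
  simp only [ite_mul, mul_ite, one_mul, zero_mul, mul_one, mul_zero, sum_ite_mem,
    inter_eq_right.2 hH] at h2
  rw [sum_congr rfl fun X hX => by rw [if_pos hX]] at h2
  simp only [sum_sub_distrib, sum_const, nsmul_eq_mul, sum_boole] at h2
  linarith

theorem step_small {V : Finset α} {k : ℕ} (h1 : 2 * k ≤ V.card)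
    (h2 : V.card + 2 * k ≤ k * k + 2) {H : Finset (Finset α)} (hH : H ⊆ powersetCard k V)
    (hc : Cross H H) : H.card ≤ (V.card - 1).choose (k - 1) := by
  rcases H.eq_empty_or_nonempty with rfl | hne
  · simp
  obtain ⟨x, hx⟩ : ∃ x, V.card = 2 * k + x := ⟨V.card - 2 * k, by omega⟩
  rcases Nat.eq_zero_or_pos k with rfl | k0
  · simpa using card_le_card hH
  obtain ⟨r, rfl⟩ : ∃ r, k = r + 1 := ⟨k - 1, by omega⟩
  have hr : x + 1 + 2 * r ≤ r * r := by nlinarith
  have N0 : (0 : ℝ) < V.card.choose (r + 1) := by exact_mod_cast Nat.choose_pos (by omega)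
  have e1 : V.card - (r + 1) = x + (r + 1) := by omega
  have h3 := hoffman (x := x + 1) (by omega)
    (V.card * (x + r).choose (x + 1) / V.card.choose (r + 1))
    ((x + (r + 1)).choose (x + 1) - (r + 1) * (x + r).choose (x + 1)) (by
      have e2 := Nat.add_one_mul_choose_eq (x + r) x
      have e3 := Nat.choose_succ_right_eq (x + r) x
      have e4 := Nat.choose_succ_succ' (x + r) x
      rw [Nat.add_sub_cancel_left] at e3
      rw [div_mul_cancel₀ _ N0.ne', e1, hx, ← add_assoc, e4]
      have e5 : ((x + r).choose (x + 1) : ℝ) * (x + 1) = (x + r).choose x * r := by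
        exact_mod_cast e3
      push_cast
      linarith) (fun j a b => by
      have := eig_ineq hr a (show r + 1 - j + j = r + 1 by omega)
      rw [show V.card - (r + 1 + j) = x + (r + 1 - j) by omega,
        show V.card + 1 - (r + 1 + j) = x + (r + 1 - j + 1) by omega]
      push_cast
      exact this) hH
  have h4 := sum_le_card_nsmul H (fun X => ((H.filter fun Y => (X ∩ Y).card = 1).card : ℝ))
    ((x + (r + 1)).choose (x + 1)) fun X hX => by
      have := few_neighbours hH hc hX
      rw [e1, Nat.add_sub_cancel, Nat.choose_symm_of_eq_add (show x + (r + 1) = r + (x + 1) by omega)]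
        at this
      exact_mod_cast this
  have H0 : (0 : ℝ) < H.card := by exact_mod_cast card_pos.2 hne
  have a0 : (0 : ℝ) < (x + r).choose (x + 1) := by
    exact_mod_cast Nat.choose_pos (show x + 1 ≤ x + r by
      have : r ≠ 0 := fun e => by simp [e] at hr
      omega)
  have n0 : (0 : ℝ) < V.card := by exact_mod_cast (show 0 < V.card by omega)
  refine Nat.cast_le (α := ℝ) |>.1 ?_
  rw [star_eq (by omega) k0, div_mul_eq_mul_div, le_div_iff₀ n0, ← div_le_iff₀ N0]
  refine le_of_mul_le_mul_right ?_ (mul_pos a0 H0)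
  rw [nsmul_eq_mul] at h4
  push_cast
  calc _ = V.card * (x + r).choose (x + 1) / V.card.choose (r + 1) * (H.card : ℝ) ^ 2 := by ring
    _ ≤ _ := by linarith

theorem step_base {V : Finset α} {r : ℕ} (hV : V.card = 2 * r + 1) {H : Finset (Finset α)}
    (hH : H ⊆ powersetCard (r + 1) V) (hc : Cross H H) : H.card ≤ (V.card - 1).choose r := by
  have h1 : ∀ Y ∈ powersetCard (r + 1) V,
      ((powersetCard (r + 1) V).filter fun X => (Y ∩ X).card = 1).card = r + 1 := by
    intro Y hY
    have := cnt_one (x := 0) (by omega) (empty_subset V) hY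
    simpa [inter_comm] using this
  have h2 : ∑ X ∈ H, ((powersetCard (r + 1) V).filter fun Y => (X ∩ Y).card = 1).card =
      ∑ Y ∈ powersetCard (r + 1) V, (H.filter fun X => (Y ∩ X).card = 1).card := by
    simp only [card_filter]
    rw [sum_comm]
    simp only [inter_comm]
  have h3 := sum_le_card_nsmul H (fun Y => (H.filter fun X => (Y ∩ X).card = 1).card) 1
    fun Y hY => by
      have := few_neighbours hH hc hY
      rwa [show V.card - (r + 1) = r by omega, Nat.add_sub_cancel, Nat.choose_self] at this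
  have h4 := sum_le_card_nsmul (powersetCard (r + 1) V \ H)
    (fun Y => (H.filter fun X => (Y ∩ X).card = 1).card) (r + 1) fun Y hY =>
      (card_le_card (filter_subset_filter _ hH)).trans (h1 Y (mem_sdiff.1 hY).1).le
  have h5 := card_sdiff_add_card_eq_card hH
  have h6 := Nat.add_one_mul_choose_eq (2 * r) r
  rw [sum_congr rfl fun X hX => h1 X (hH hX), ← sum_sdiff hH, sum_const] at h2
  rw [card_powersetCard, hV] at h5
  simp only [smul_eq_mul] at h2 h3 h4
  rw [hV, Nat.add_sub_cancel]
  refine Nat.le_of_mul_le_mul_left ?_ (show 0 < 2 * r + 1 by omega)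
  rw [h6, ← h5]
  nlinarith

end Pool.Agent.MP_6574cc_co.H13
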