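import Pool.Agent.MP_6574cc_co.H13.Base

/-! The modular construction, with a small loss already for `n` of order `k ^ 2`. -/

namespace Pool.Agent.MP_6574cc_co.H13

open Finset
open H69 hiding sf_lower
open scoped Classical

variable {α : Type*} [DecidableEq α]

/-- the modular construction -/
theorem sf_lower (k : ℕ) (hk : 2 ≤ k) (U : Finset α) {q : ℝ} (hq : q = k * (k + 1) / 2)
    (hU : (3 : ℝ) * k ≤ U.card) :
    ∃ G ⊆ powersetCard k U, SF G ∧
      Real.exp (-1) / q * (U.card - 2 * k) ^ k ≤ (k.factorial : ℝ) * G.card := by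
  have hk' : (2 : ℝ) ≤ k := by exact_mod_cast hk
  obtain ⟨Q, hQ⟩ : ∃ Q : ℕ, (Q : ℝ) = q := by
    refine ⟨(k + 1).choose 2, ?_⟩
    rw [Nat.cast_choose_two, hq]; push_cast; ring
  have hqk : (k : ℝ) + 1 ≤ q := by rw [hq]; nlinarith
  have hq0 : 0 < q := by linarith
  have hQ0 : 0 < Q := by
    have : (0 : ℝ) < Q := by rw [hQ]; exact hq0
    exact_mod_cast this
  have : NeZero Q := ⟨hQ0.ne'⟩
  set idx : α → ℕ := fun a => if h : a ∈ U then (U.equivFin ⟨a, h⟩ : ℕ) else 0 with hidx
  have hidx1 : ∀ a ∈ U, idx a < U.card := fun a ha => by simp [hidx, ha]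
  have hidx2 : ∀ a ∈ U, ∀ b ∈ U, idx a = idx b → a = b := by
    intro a ha b hb e
    simp only [hidx, ha, hb, dif_pos] at e
    have := U.equivFin.injective (Fin.ext e)
    exact congrArg Subtype.val this
  set f : α → ZMod Q := fun a => (idx a : ZMod Q) with hf
  set T : α → α → Prop := fun a b => f a = f b with hT
  have hD : ∀ v ∈ U, ((nb T U v).card : ℝ) ≤ U.card / q + 1 := by
    intro v _
    have h1 : (nb T U v).card ≤ (range (U.card / Q + 1)).card := by
      refine card_le_card_of_injOn (fun a => idx a / Q) ?_ ?_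
      · intro a ha
        have := hidx1 a (mem_nb.1 (mem_coe.1 ha)).1
        exact mem_coe.2 (mem_range.2 (Nat.lt_succ_of_le (Nat.div_le_div_right this.le)))
      · intro a ha b hb e
        obtain ⟨a1, a2⟩ := mem_nb.1 (mem_coe.1 ha)
        obtain ⟨b1, b2⟩ := mem_nb.1 (mem_coe.1 hb)
        have h2 : f a = f b := a2.symm.trans b2
        have h3 : idx a % Q = idx b % Q := (ZMod.natCast_eq_natCast_iff' _ _ _).1 h2
        refine hidx2 a a1 b b1 ?_
        have e' : idx a / Q = idx b / Q := e
        rw [← Nat.div_add_mod (idx a) Q, ← Nat.div_add_mod (idx b) Q, e', h3]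
    rw [card_range] at h1
    have h2 : ((nb T U v).card : ℝ) ≤ (U.card / Q : ℕ) + 1 := by exact_mod_cast h1
    have h3 : ((U.card / Q : ℕ) : ℝ) ≤ U.card / Q := Nat.cast_div_le
    rw [hQ] at h3
    linarith
  have hkD : k * ((U.card : ℝ) / q + 1) ≤ U.card := by
    have h1 : (k : ℝ) * (U.card / q) ≤ 2 / 3 * U.card := by
      rw [← mul_div_assoc, div_le_iff₀ hq0]
      have : (k : ℝ) ≤ 2 / 3 * q := by rw [hq]; nlinarith
      nlinarith
    linarith
  have hl := ind_lower (T := T) (fun _ => rfl) (fun _ _ h => h.symm) U (U.card / q + 1)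
    (by positivity) hD k U (Subset.refl _) U.card le_rfl hkD
  have hp : (U.card - 2 * k) ^ k * Real.exp (-1) ≤
      ∏ i ∈ range k, ((U.card : ℝ) - i * (U.card / q + 1)) := by
    have h0 : 0 ≤ (U.card : ℝ) - 2 * k := by linarith
    calc _ ≤ (U.card - 2 * k) ^ k * ∏ i ∈ range k, (1 - (i : ℝ) / q) :=
          mul_le_mul_of_nonneg_left (prod_ge k hk hq) (pow_nonneg h0 k)
      _ = ∏ i ∈ range k, ((U.card - 2 * k) * (1 - (i : ℝ) / q)) := by
          rw [prod_mul_distrib, prod_const, card_range]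
      _ ≤ _ := by
          refine prod_le_prod (fun i hi => ?_) (fun i hi => ?_)
          · have hi' : (i : ℝ) ≤ k := by exact_mod_cast (mem_range.1 hi).le
            have : (i : ℝ) / q ≤ 1 := (div_le_one hq0).2 (by linarith)
            exact mul_nonneg h0 (by linarith)
          · have hi' : (i : ℝ) + 1 ≤ k := by exact_mod_cast mem_range.1 hi
            have e : ((U.card : ℝ) - 2 * k) * (1 - (i : ℝ) / q) =
                U.card - i * (U.card / q) - 2 * k * (1 - i / q) := by ring
            have e' : (i : ℝ) / q ≤ 1 / 2 := by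
              rw [div_le_iff₀ hq0, hq]
              nlinarith [sq_nonneg ((k : ℝ) - 2)]
            rw [e]
            nlinarith
  obtain ⟨c, -, hc⟩ := exists_max_image (univ : Finset (ZMod Q))
    (fun c => ((Ind T U k).filter (fun S => ∑ a ∈ S, f a = c)).card) univ_nonempty
  have h1 : (Ind T U k).card ≤ Q * ((Ind T U k).filter (fun S => ∑ a ∈ S, f a = c)).card := by
    rw [card_eq_sum_card_fiberwise (f := fun S => ∑ a ∈ S, f a) (t := univ)
      (fun _ _ => mem_coe.2 (mem_univ _))]
    refine le_trans (sum_le_card_nsmul _ _ _ hc) ?_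
    rw [card_univ, ZMod.card, smul_eq_mul]
  refine ⟨(Ind T U k).filter (fun S => ∑ a ∈ S, f a = c), ?_, ?_, ?_⟩
  · exact (filter_subset _ _).trans (filter_subset _ _)
  · intro Z a b hab haZ hbZ h2 h3 C hC ha hb
    have e1 := (mem_filter.1 h2).2
    have e2 := (mem_filter.1 h3).2
    rw [sum_insert haZ] at e1
    rw [sum_insert hbZ] at e2
    have e3 : f a = f b := add_right_cancel (e1.trans e2.symm)
    exact hab ((mem_Ind.1 (mem_filter.1 hC).1).2.2 a ha b hb e3)
  · have h2 : ((Ind T U k).card : ℝ) ≤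
        q * ((Ind T U k).filter (fun S => ∑ a ∈ S, f a = c)).card := by
      rw [← hQ]; exact_mod_cast h1
    have h3 : (0 : ℝ) < k.factorial := by exact_mod_cast Nat.factorial_pos k
    rw [div_mul_eq_mul_div, div_le_iff₀ hq0]
    nlinarith

end Pool.Agent.MP_6574cc_co.H13
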