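import Pool.Agent.MP_6574cc_co.H13.Eig
import Pool.Agent.MP_6574cc_co.H13.Lower
import Pool.Agent.MP_6574cc_co.H69.Final

/-! The range in which stars are extremal, and the ratio of the two Turan numbers. -/

namespace Pool.Agent.MP_6574cc_co.H13

open Finset Filter
open scoped Classical

variable {α : Type*} [DecidableEq α]

theorem exists_y (y₀ : ℕ) : ∃ k₀ : ℕ, ∀ k, k₀ ≤ k →
    ∃ y, y₀ ≤ y ∧ y ^ 20 ≤ k ∧ (k : ℝ) ^ 10 ≤ (101 / 100) ^ y := by
  obtain ⟨N, hN⟩ := eventually_atTop.1 ((tendsto_pow_const_div_const_pow_of_one_lt 200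
    (show (1 : ℝ) < 101 / 100 by norm_num)).eventually (gt_mem_nhds (show (0 : ℝ) < 1 / 2 by norm_num)))
  refine ⟨(N + y₀) ^ 20, fun k hk => ?_⟩
  have ex : ∃ y, k < (y + 1) ^ 20 :=
    ⟨k, (Nat.lt_succ_self k).trans_le (Nat.le_self_pow (by norm_num) _)⟩
  have h1 := Nat.find_spec ex
  have h2 : N + y₀ < Nat.find ex + 1 := lt_of_pow_lt_pow_left₀ 20 (Nat.zero_le _) (hk.trans_lt h1)
  refine ⟨Nat.find ex, by omega, ?_, ?_⟩
  · rcases Nat.eq_zero_or_pos (Nat.find ex) with h | h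
    · simp [h]
    · have := Nat.find_min ex (Nat.sub_lt h one_pos)
      rwa [show Nat.find ex - 1 + 1 = Nat.find ex by omega, not_lt] at this
  · have h3 := hN (Nat.find ex + 1) (by omega)
    have h4 : (k : ℝ) ≤ ((Nat.find ex + 1 : ℕ) : ℝ) ^ 20 := by exact_mod_cast h1.le
    have h5 := pow_le_pow_left₀ (Nat.cast_nonneg _) h4 10
    rw [div_lt_iff₀ (by positivity), pow_succ (101 / 100 : ℝ)] at h3
    rw [← pow_mul] at h5
    have : (0 : ℝ) < (101 / 100) ^ Nat.find ex := by positivity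
    exact h5.trans (h3.le.trans (by linarith))

theorem upper_small {V : Finset α} {k : ℕ} (hk : 1 ≤ k) (h1 : 2 * k ≤ V.card + 1)
    (h2 : V.card + 2 * k ≤ k * k + 2) {H : Finset (Finset α)} (hH : H ⊆ powersetCard k V)
    (hc : Cross H H) : H.card ≤ (V.card - 1).choose (k - 1) := by
  rcases h1.eq_or_lt with h | h
  · obtain ⟨r, rfl⟩ : ∃ r, k = r + 1 := ⟨k - 1, by omega⟩
    exact step_base (by omega) hH hc
  · exact step_small (by omega) h2 hH hc

theorem upper_large {k y : ℕ} (hy : 100000 ≤ y) (hk : y ^ 20 ≤ k)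
    (he : (k : ℝ) ^ 10 ≤ (101 / 100) ^ y) (V : Finset α) : 2 * k ≤ V.card + 1 →
    V.card * (1 + 5 / y) ≤ Real.exp 1 / 2 * k ^ 3 → ∀ H ⊆ powersetCard k V, Cross H H →
    H.card ≤ (V.card - 1).choose (k - 1) := by
  have k0 : 100000 ≤ k := hy.trans ((Nat.le_self_pow (by norm_num) y).trans hk)
  induction V using Finset.strongInduction with
  | H V ih =>
  intro h1 h2 H hH hc
  by_cases h3 : V.card + 2 * k ≤ k * k + 2
  · exact upper_small (by omega) h1 h3 hH hc
  have y0 : (0 : ℝ) ≤ 5 / y := by positivity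
  by_cases h4 : ∀ a ∈ V, (V.card - 2).choose (k - 2) < dg H {a}
  · refine step_large ⟨hy, hk, he, by nlinarith, ?_⟩ h2 rfl hH hc h4
    have e1 := Real.exp_one_lt_d9
    have e2 : (0 : ℝ) ≤ V.card * (5 / y) := by positivity
    have e3 : (0 : ℝ) ≤ k ^ 3 := by positivity
    exact_mod_cast (show (V.card : ℝ) ≤ 2 * k ^ 3 by nlinarith)
  simp only [not_forall, not_lt] at h4
  obtain ⟨a, ha, h4⟩ := h4
  have h5 : (V \ {a}).card + 1 = V.card := by
    rw [sdiff_singleton_eq_erase, card_erase_add_one ha]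
  have h6 : 4 * k ≤ V.card := by nlinarith
  have h7 := ih (V \ {a}) (sdiff_ssubset (singleton_subset_iff.2 ha) (singleton_nonempty a))
    (by omega) (le_trans (by gcongr; exact sdiff_subset) h2) _ (av_sub hH {a})
    (hc.mono (av_subset _ _) (av_subset _ _))
  have h8 := card_le_av H {a}
  have h9 := Nat.choose_succ_succ' (V.card - 2) (k - 2)
  rw [show V.card - 2 + 1 = V.card - 1 by omega, show k - 2 + 1 = k - 1 by omega] at h9
  rw [show (V \ {a}).card - 1 = V.card - 2 by omega] at h7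
  rw [sum_singleton] at h8
  omega

theorem star_card {V : Finset α} {k : ℕ} (hk : 1 ≤ k) (h : k ≤ V.card) {w : α} (hw : w ∈ V) :
    ((powersetCard k V).filter fun C => w ∈ C).card = (V.card - 1).choose (k - 1) := by
  have h1 := cnt_trace (k := k) (t := V.card - k) (Subset.refl {w}) (singleton_subset_iff.2 hw)
    (by rw [card_singleton]; omega)
  rw [card_singleton, Nat.choose_symm_of_eq_add (show V.card - 1 = V.card - k + (k - 1) by omega)]
    at h1
  rw [← h1]
  congr 1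
  exact filter_congr fun C _ => by rw [inter_eq_right, singleton_subset_iff]

theorem average {k m : ℕ} (hm : k ≤ m) {c : ℝ}
    (h : ∀ V : Finset α, V.card = m → ∀ H ⊆ powersetCard k V, Cross H H →
      (H.card : ℝ) ≤ c * m.choose k) (n : ℕ) (hn : m ≤ n) :
    ∀ V : Finset α, V.card = n → ∀ H ⊆ powersetCard k V, Cross H H →
      (H.card : ℝ) ≤ c * n.choose k := by
  induction n, hn using Nat.le_induction with
  | base => exact h
  | succ n hn ih =>
    intro V hV H hH hc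
    have h1 := sum_le_card_nsmul V (fun a => ((av H {a}).card : ℝ)) (c * n.choose k) fun a ha =>
      ih (V \ {a}) (by rw [sdiff_singleton_eq_erase, card_erase_of_mem ha, hV]; rfl) _
        (av_sub hH {a}) (hc.mono (av_subset _ _) (av_subset _ _))
    have h2 := card_nsmul_le_sum V (fun a => (av H {a}).card + dg H {a}) H.card fun a _ => by
      simpa using card_le_av H {a}
    have h3 := sum_inter H V
    rw [sum_congr rfl fun C hC => by
      rw [inter_eq_left.2 (mem_powersetCard.1 (hH hC)).1, (mem_powersetCard.1 (hH hC)).2],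
      sum_const] at h3
    rw [sum_add_distrib, ← h3, hV, smul_eq_mul, smul_eq_mul] at h2
    have h4 : ((n : ℝ) + 1) * H.card ≤ ∑ a ∈ V, ((av H {a}).card : ℝ) + H.card * k := by
      exact_mod_cast h2
    have h5 := congrArg (Nat.cast : ℕ → ℝ) (Nat.choose_mul_succ_eq n k)
    have h6 : (k : ℝ) ≤ n := by exact_mod_cast hm.trans hn
    rw [Nat.cast_mul, Nat.cast_mul, Nat.cast_sub (by omega)] at h5
    rw [nsmul_eq_mul, hV] at h1
    push_cast at h1 h5
    refine le_of_mul_le_mul_right ?_ (show (0 : ℝ) < n + 1 - k by linarith)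
    rw [mul_assoc, ← h5]
    linarith

theorem star_le {n k : ℕ} (hn : 0 < n) (hk : 0 < k) :
    ((n - 1).choose (k - 1) : ℝ) ≤ k / n * nu n k := by
  rw [star_eq hn hk]
  exact mul_le_mul_of_nonneg_left (choose_le_nu n k) (by positivity)

theorem sf_lo {k : ℕ} {t : ℝ} (t1 : t ≤ 1 / 20) (hk : 1 ≤ t * k) (V : Finset α)
    (hn : (k : ℝ) ^ 2 ≤ t * V.card) : ∃ G ⊆ powersetCard k V, H69.SF G ∧
      (1 - 3 * t) * (2 * Real.exp (-1) / k ^ 2 * nu V.card k) ≤ G.card := by
  have k0 : (0 : ℝ) ≤ k := Nat.cast_nonneg k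
  have k1 : (20 : ℝ) ≤ k := by nlinarith
  have n1 : (0 : ℝ) ≤ V.card := Nat.cast_nonneg _
  have n2 : 20 * (k : ℝ) ^ 2 ≤ V.card := by nlinarith
  have n0 : (0 : ℝ) < V.card := by nlinarith
  obtain ⟨G, h1, h2, h3⟩ := sf_lower k (by exact_mod_cast (show (2 : ℝ) ≤ k by linarith)) V rfl
    (by nlinarith)
  refine ⟨G, h1, h2, ?_⟩
  have h4 := one_add_mul_le_pow (a := -(2 * k / (V.card : ℝ))) (by
    have : 2 * k / (V.card : ℝ) ≤ 1 := (div_le_one n0).2 (by nlinarith)
    linarith) k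
  have h5 : (1 - 2 * t) * (V.card : ℝ) ^ k ≤ (V.card - 2 * k) ^ k := by
    have e1 : (V.card : ℝ) - 2 * k = (1 + -(2 * k / (V.card : ℝ))) * V.card := by field_simp; ring
    have e2 : k * (2 * k / (V.card : ℝ)) ≤ 2 * t := by
      rw [← mul_div_assoc, div_le_iff₀ n0]
      linarith
    rw [e1, mul_pow]
    exact mul_le_mul_of_nonneg_right (by linarith) (by positivity)
  have h6 : (1 - t) * (2 * Real.exp (-1) / k ^ 2) ≤ Real.exp (-1) / (k * (k + 1) / 2) := by
    have e0 := Real.exp_pos (-1)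
    rw [← mul_div_assoc, div_le_div_iff₀ (by positivity) (by positivity)]
    have e1 : (1 - t) * (k + 1) ≤ k := by nlinarith
    have e2 := mul_le_mul_of_nonneg_left e1 (mul_nonneg e0.le k0)
    linarith
  have t0 : 0 < t := by nlinarith
  rw [nu, ← mul_div_assoc, ← mul_div_assoc, div_le_iff₀' (by positivity)]
  refine le_trans ?_ h3
  calc _ ≤ (1 - t) * (1 - 2 * t) * (2 * Real.exp (-1) / k ^ 2 * (V.card : ℝ) ^ k) := by
        gcongr ?_ * _
        nlinarith
    _ = (1 - t) * (2 * Real.exp (-1) / k ^ 2) * ((1 - 2 * t) * (V.card : ℝ) ^ k) := by ring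
    _ ≤ _ := mul_le_mul h6 h5 (mul_nonneg (by linarith) (by positivity)) (by positivity)

theorem sf_up {k : ℕ} {t : ℝ} (t1 : t ≤ 1 / 20) (hk : 1 ≤ t * k) {V : Finset α}
    (hn : (k : ℝ) ^ 2 ≤ t * V.card) {G : Finset (Finset α)} (hG : G ⊆ powersetCard k V)
    (hs : H69.SF G) : (G.card : ℝ) ≤ (1 + 7 * t) * (2 * Real.exp (-1) / k ^ 2 * nu V.card k) := by
  have k0 : (0 : ℝ) ≤ k := Nat.cast_nonneg k
  have k1 : (20 : ℝ) ≤ k := by nlinarith
  have t0 : 0 < t := by nlinarith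
  have n1 : (0 : ℝ) ≤ V.card := Nat.cast_nonneg _
  have n0 : (0 : ℝ) < V.card := by nlinarith
  have k2 : 20 ≤ k := by exact_mod_cast k1
  obtain ⟨s, rfl⟩ : ∃ s, k = s + 1 := ⟨k - 1, by omega⟩
  have h1 := H69.sf_upper (by omega) V G hG hs
  have h2 : ((V.card : ℝ) + 1) ^ (s + 1) ≤ (1 + 2 * t) * (V.card : ℝ) ^ (s + 1) := by
    have e1 : (V.card : ℝ) + 1 ≤ Real.exp (1 / V.card) * V.card := by
      have := mul_le_mul_of_nonneg_right (Real.add_one_le_exp (1 / (V.card : ℝ))) n1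
      rw [add_mul, one_div_mul_cancel n0.ne'] at this
      linarith
    refine (pow_le_pow_left₀ (by positivity) e1 _).trans ?_
    rw [mul_pow, ← Real.exp_nat_mul, mul_one_div]
    refine mul_le_mul_of_nonneg_right ?_ (by positivity)
    have e2 : ((s + 1 : ℕ) : ℝ) / V.card ≤ t := by
      rw [div_le_iff₀ n0]
      nlinarith
    have e3 := Real.abs_exp_sub_one_le (x := t) (by rw [abs_of_pos t0]; linarith)
    rw [abs_of_pos t0] at e3
    linarith [le_abs_self (Real.exp t - 1), Real.exp_le_exp.2 e2]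
  have h3 : Real.exp (-1) / (s * (s - 1) / 2) ≤
      (1 + 4 * t) * (2 * Real.exp (-1) / ((s + 1 : ℕ) : ℝ) ^ 2) := by
    have e0 := Real.exp_pos (-1)
    push_cast at k1 hk ⊢
    have e1 : (0 : ℝ) < s * (s - 1) / 2 := by nlinarith
    rw [← mul_div_assoc, div_le_div_iff₀ e1 (by positivity)]
    have e2 : ((s : ℝ) + 1) * (s * (s - 1)) ≤ t * (s + 1) * (s + 1) * (s * (s - 1)) := by
      refine mul_le_mul_of_nonneg_right ?_ (by linarith)
      nlinarith
    have e3 : ((s : ℝ) + 1) ^ 2 ≤ (1 + 4 * t) * (s * (s - 1)) := by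
      refine le_of_mul_le_mul_left ?_ (show (0 : ℝ) < (s + 1) * (s + 1) by positivity)
      nlinarith
    nlinarith
  rw [nu, ← mul_div_assoc, ← mul_div_assoc, le_div_iff₀' (by positivity)]
  refine h1.trans ((mul_le_mul h3 h2 (by positivity) (by positivity)).trans ?_)
  calc _ = (1 + 4 * t) * (1 + 2 * t) *
        (2 * Real.exp (-1) / ((s + 1 : ℕ) : ℝ) ^ 2 * (V.card : ℝ) ^ (s + 1)) := by ring
    _ ≤ _ := by
        gcongr ?_ * _
        nlinarith

theorem p_eq {n k : ℝ} (hn : 0 < n) (hk : 0 < k) :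
    k / n = Real.exp 1 * k ^ 3 / (2 * n) * (2 * Real.exp (-1) / k ^ 2) := by
  have := Real.exp_pos 1
  rw [Real.exp_neg]
  field_simp

theorem af_up {t : ℝ} (t0 : 0 < t) (t1 : t ≤ 1 / 20) : ∃ k₀ : ℕ, ∀ k, k₀ ≤ k → 1 ≤ t * k ∧
    ∀ (α : Type) [DecidableEq α] (V : Finset α), 2 * k ≤ V.card + 1 →
      ∀ H ⊆ powersetCard k V, Cross H H → (V.card * (1 + 5 * t) ≤ Real.exp 1 / 2 * k ^ 3 →
        H.card ≤ (V.card - 1).choose (k - 1)) ∧
      (H.card : ℝ) ≤ (1 + 6 * t) * max 1 (Real.exp 1 * k ^ 3 / (2 * V.card)) *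
        (2 * Real.exp (-1) / k ^ 2 * nu V.card k) := by
  obtain ⟨k₀, h⟩ := exists_y (100000 + ⌈1 / t⌉₊)
  refine ⟨k₀, fun k hk => ?_⟩
  obtain ⟨y, y1, y2, y3⟩ := h k hk
  have y4 : 1 ≤ t * y := by
    rw [← div_le_iff₀' t0]
    exact (Nat.le_ceil _).trans (by exact_mod_cast (show ⌈1 / t⌉₊ ≤ y by omega))
  have y5 : y ≤ k := (Nat.le_self_pow (by norm_num) y).trans y2
  have y6 : (y : ℝ) ≤ k := by exact_mod_cast y5
  have y0 : (0 : ℝ) < y := by exact_mod_cast (show 0 < y by omega)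
  have k1 : 1 ≤ t * k := y4.trans (by gcongr)
  have k2 : (20 : ℝ) ≤ k := by nlinarith
  refine ⟨k1, fun α _ => ?_⟩
  have h1 : ∀ V : Finset α, 2 * k ≤ V.card + 1 → ∀ H ⊆ powersetCard k V, Cross H H →
      V.card * (1 + 5 * t) ≤ Real.exp 1 / 2 * k ^ 3 → H.card ≤ (V.card - 1).choose (k - 1) := by
    intro V a H b c d
    refine upper_large (by omega) y2 y3 V a (le_trans ?_ d) H b c
    gcongr
    rw [div_le_iff₀ y0]
    linarith
  refine fun V a H b c => ⟨h1 V a H b c, ?_⟩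
  have n0 : (0 : ℝ) < V.card := by exact_mod_cast (show 0 < V.card by omega)
  have u0 := nu_pos n0 k
  have g0 : 0 < 2 * Real.exp (-1) / k ^ 2 * nu V.card k := by positivity
  by_cases d : V.card * (1 + 5 * t) ≤ Real.exp 1 / 2 * k ^ 3
  · have e1 := (Nat.cast_le.2 (h1 V a H b c d)).trans (star_le (by omega) (by omega))
    rw [p_eq n0 (by positivity), mul_assoc] at e1
    refine e1.trans (mul_le_mul_of_nonneg_right ((le_max_right 1 _).trans ?_) g0.le)
    exact le_mul_of_one_le_left (by positivity) (by linarith)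
  obtain ⟨m, hm⟩ : ∃ m, m = ⌊Real.exp 1 / 2 * k ^ 3 / (1 + 5 * t)⌋₊ := ⟨_, rfl⟩
  have m1 : m * (1 + 5 * t) ≤ Real.exp 1 / 2 * k ^ 3 := by
    rw [← le_div_iff₀ (by positivity), hm]
    exact Nat.floor_le (by positivity)
  have m2 : Real.exp 1 / 2 * k ^ 3 < (m + 1) * (1 + 5 * t) := by
    rw [← div_lt_iff₀ (by positivity), hm]
    exact Nat.lt_floor_add_one _
  have m3 : 2 * (k : ℝ) ≤ m := by
    have e1 : (k : ℝ) ^ 3 ≤ Real.exp 1 / 2 * k ^ 3 :=
      le_mul_of_one_le_left (by positivity) (by linarith [Real.exp_one_gt_d9])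
    have e2 : 400 * (k : ℝ) ≤ k ^ 3 := by nlinarith
    have e3 := mul_le_mul_of_nonneg_left t1 (show (0 : ℝ) ≤ m + 1 by positivity)
    linarith
  have m4 : 2 * k ≤ m := by exact_mod_cast m3
  have m0 : (0 : ℝ) < m := by linarith
  have m5 : m ≤ V.card := by
    refine Nat.cast_le (α := ℝ) |>.1 (le_of_mul_le_mul_right (m1.trans (not_le.1 d).le) ?_)
    positivity
  have e1 := average (α := α) (k := k) (m := m) (c := k / m) (by omega) (fun W a H b c => by
    rw [← star_eq (by omega) (by omega), ← a]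
    exact_mod_cast h1 W (by omega) H b c (a ▸ m1)) _ m5 V rfl H b c
  have e2 : Real.exp 1 * k ^ 3 / (2 * m) ≤ 1 + 6 * t := by
    rw [div_le_iff₀ (by positivity)]
    nlinarith
  calc (H.card : ℝ) ≤ k / m * nu V.card k :=
        e1.trans (mul_le_mul_of_nonneg_left (choose_le_nu _ _) (by positivity))
    _ = Real.exp 1 * k ^ 3 / (2 * m) * (2 * Real.exp (-1) / k ^ 2 * nu V.card k) := by
        rw [p_eq m0 (by positivity), mul_assoc]
    _ ≤ _ := mul_le_mul_of_nonneg_right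
        (e2.trans (le_mul_of_one_le_right (by positivity) (le_max_left _ _))) g0.le

theorem exists_star (n k : ℕ) (hk : 1 ≤ k) (h : k ≤ n) :
    ∃ H : Finset (Finset (Fin n)), H ⊆ powersetCard k univ ∧
      (∀ A ∈ H, ∀ B ∈ H, ∀ C ∈ H, (A ∩ B).card = k - 1 → symmDiff A B ⊆ C →
        Disjoint C (A ∩ B) → False) ∧ H.card = (n - 1).choose (k - 1) := by
  refine ⟨(powersetCard k univ).filter fun C => ⟨0, by omega⟩ ∈ C, filter_subset _ _,
    fun A a B b C c _ _ d => disjoint_left.1 d (mem_filter.1 c).2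
      (mem_inter.2 ⟨(mem_filter.1 a).2, (mem_filter.1 b).2⟩), ?_⟩
  simpa using star_card (V := (univ : Finset (Fin n))) hk (by simpa using h) (mem_univ _)

theorem sf_of {k : ℕ} {G : Finset (Finset α)} {U : Finset α} (hG : G ⊆ powersetCard k U)
    (h : ∀ A ∈ G, ∀ B ∈ G, ∀ C ∈ G, (A ∩ B).card = k - 1 → symmDiff A B ⊆ C → False) :
    H69.SF G := by
  intro Z a b hab ha hb h1 h2 C hC h3 h4
  refine h _ h1 _ h2 C hC ?_ fun x hx => ?_
  · rw [insert_inter_of_notMem (by simp [hab, ha]), inter_eq_left.2 (subset_insert _ _),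
      ← (mem_powersetCard.1 (hG h1)).2, card_insert_of_notMem ha]
    rfl
  · simp only [mem_symmDiff, mem_insert, not_or] at hx
    rcases hx with ⟨h | h, h'⟩ | ⟨h | h, h'⟩
    · exact h ▸ h3
    · exact absurd h h'.2
    · exact h ▸ h4
    · exact absurd h h'.2

end Pool.Agent.MP_6574cc_co.H13
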