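import Pool.Agent.MP_6574cc_co.H13.Main

/-!
The star is extremal up to `(e / 2 - ε) k ^ 3` and is beaten from `(e / 2 + ε) k ^ 3` on.
-/

namespace Pool.Agent.MP_6574cc_co.H13

theorem star_range (ε : ℝ) (hε : 0 < ε) :
    ∃ k₀ : ℕ, ∀ k n : ℕ, 2 ≤ k → 2 * k ≤ n + 1 →
      (n + 2 * k ≤ k ^ 2 + 2 ∨ (k₀ ≤ k ∧ (n : ℝ) ≤ (Real.exp 1 / 2 - ε) * k ^ 3) →
        IsGreatest {m : ℕ | ∃ H : Finset (Finset (Fin n)), H ⊆ Finset.powersetCard k Finset.univ ∧
          (∀ A ∈ H, ∀ B ∈ H, ∀ C ∈ H, (A ∩ B).card = k - 1 → symmDiff A B ⊆ C →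
            Disjoint C (A ∩ B) → False) ∧ H.card = m} ((n - 1).choose (k - 1))) ∧
      (k₀ ≤ k → (Real.exp 1 / 2 + ε) * k ^ 3 ≤ n →
        ∃ G : Finset (Finset (Fin n)), G ⊆ Finset.powersetCard k Finset.univ ∧
          (∀ A ∈ G, ∀ B ∈ G, ∀ C ∈ G, (A ∩ B).card = k - 1 → symmDiff A B ⊆ C → False) ∧
          (n - 1).choose (k - 1) < G.card) := by
  obtain ⟨t, ht⟩ : ∃ t, t = min ε 1 / 20 := ⟨_, rfl⟩
  have t0 : 0 < t := by rw [ht]; positivity
  have t1 : t ≤ 1 / 20 := by linarith [min_le_right ε 1]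
  have t2 : t ≤ ε / 20 := by linarith [min_le_left ε 1]
  have e1 := Real.exp_one_lt_d9
  have e2 := Real.exp_one_gt_d9
  obtain ⟨k₀, h⟩ := af_up t0 t1
  refine ⟨k₀, fun k n k2 hn => ⟨fun hr => ⟨exists_star n k (by omega) (by omega), ?_⟩,
    fun hk hr => ?_⟩⟩
  · rintro _ ⟨H, h1, h2, rfl⟩
    rcases hr with hr | ⟨hk, hr⟩
    · simpa using upper_small (V := Finset.univ) (by omega) (by simpa using hn)
        (by simpa [sq] using hr) h1 (H69.af_of h1 h2)
    · have h3 := ((h k hk).2 (Fin n) Finset.univ (by simpa using hn) H h1 (H69.af_of h1 h2)).1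
      rw [Finset.card_univ, Fintype.card_fin] at h3
      refine h3 ((mul_le_mul_of_nonneg_right hr (by positivity)).trans ?_)
      rw [mul_right_comm]
      exact mul_le_mul_of_nonneg_right (by nlinarith) (by positivity)
  · have k1 := (h k hk).1
    have k0 : (0 : ℝ) < k := by exact_mod_cast (show 0 < k by omega)
    have n0 : (0 : ℝ) < n := by exact_mod_cast (show 0 < n by omega)
    have k3 : (0 : ℝ) < k ^ 3 := by positivity
    obtain ⟨G, h1, h2, h3⟩ := sf_lo t1 k1 (Finset.univ : Finset (Fin n)) (by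
      rw [Finset.card_univ, Fintype.card_fin]
      have h4 : (k : ℝ) ^ 3 ≤ n := by nlinarith
      nlinarith [mul_le_mul_of_nonneg_right k1 (sq_nonneg (k : ℝ))])
    rw [Finset.card_univ, Fintype.card_fin] at h3
    obtain ⟨r, rfl⟩ : ∃ r, k = r + 1 := ⟨k - 1, by omega⟩
    refine ⟨G, h1, H69.of_sf h1 h2, Nat.cast_lt (α := ℝ) |>.1
      ((star_le (by omega) (by omega)).trans_lt (lt_of_lt_of_le ?_ h3))⟩
    have u0 := nu_pos n0 (r + 1)
    rw [p_eq n0 k0, mul_assoc]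
    refine mul_lt_mul_of_pos_right ?_ (by positivity)
    rw [div_lt_iff₀ (by positivity)]
    have h4 : Real.exp 1 / 2 < (1 - 3 * t) * (Real.exp 1 / 2 + ε) := by nlinarith
    have h5 := mul_lt_mul_of_pos_right h4 k3
    have h6 := mul_le_mul_of_nonneg_left hr (show 0 ≤ 1 - 3 * t by linarith)
    linarith

end Pool.Agent.MP_6574cc_co.H13
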