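import Pool.Agent.MP_6574cc_co.H13.Cover

/-! Pairs of points with many common link members are rarely covered. -/

namespace Pool.Agent.MP_6574cc_co.H13

open Finset
open scoped Classical

variable {α : Type*} [DecidableEq α]

/-- two points with many common link members -/
def Sim (x : ℝ) (L : Finset (Finset α)) (a b : α) : Prop :=
  a ≠ b ∧ x ≤ (lk L {a} ∩ lk L {b}).card

/-- the points of `C` that are similar to another point of `C` -/
noncomputable def rr (x : ℝ) (L : Finset (Finset α)) (C : Finset α) : Finset α :=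
  C.filter (fun a => ∃ b ∈ C, Sim x L a b)

theorem Sim.symm {x : ℝ} {L : Finset (Finset α)} {a b : α} (h : Sim x L a b) : Sim x L b a :=
  ⟨h.1.symm, by rw [inter_comm]; exact h.2⟩

theorem mem_lk1 {F : Finset (Finset α)} {a : α} {Z : Finset α} :
    Z ∈ lk F {a} ↔ a ∉ Z ∧ insert a Z ∈ F := by
  rw [mem_lk, disjoint_singleton_right, union_comm, ← insert_eq]

theorem Par.exists_z {k n y : ℕ} (P : Par k n y) :
    ∃ z : ℕ, (y : ℝ) * n / k ≤ z ∧ (z : ℝ) ≤ 2 * (y * n / k) := by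
  have k0 := P.kpos
  have h1 : (1 : ℝ) ≤ y * n / k := by
    rw [le_div_iff₀ k0]
    have := P.n1'
    have := P.y0
    have := P.k0
    nlinarith
  refine ⟨⌈(y : ℝ) * n / k⌉₊, Nat.le_ceil _, ?_⟩
  have := Nat.ceil_lt_add_one (zero_le_one.trans h1)
  linarith

theorem Par.nu_far {k n y s : ℕ} (P : Par k n y) {V Z : Finset α} (hV : V.card = n) (hZ : Z ⊆ V)
    (hz : (y : ℝ) * n / k ≤ Z.card) (hs : k ≤ 2 * s) :
    nu (V \ Z).card s ≤ 1 / (k : ℝ) ^ 10 * nu n s := by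
  have k0 := P.kpos
  have n0 := P.npos
  have h1 : ((V \ Z).card : ℝ) = n - Z.card := by
    rw [card_sdiff_of_subset hZ, Nat.cast_sub (card_le_card hZ), hV]
  have h2 : ((V \ Z).card : ℝ) ≤ Real.exp (-(Z.card / n)) * n := by
    have := Real.add_one_le_exp (-((Z.card : ℝ) / n))
    have h3 := mul_le_mul_of_nonneg_right this n0.le
    rw [add_mul, neg_mul, div_mul_cancel₀ _ n0.ne'] at h3
    linarith
  refine (nu_mono (Nat.cast_nonneg _) h2 s).trans ?_
  have h3 : (y : ℝ) / 2 ≤ s * (Z.card / n) := by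
    have h4 : (k : ℝ) ≤ 2 * s := by exact_mod_cast hs
    rw [div_le_iff₀ k0] at hz
    rw [← mul_div_assoc, le_div_iff₀ n0]
    nlinarith [Nat.cast_nonneg (α := ℝ) Z.card]
  have h4 := mul_le_mul_of_nonneg_right (P.exp_le h3) (nu_nonneg n0.le s)
  refine le_trans (le_of_eq ?_) h4
  unfold nu
  rw [mul_pow, ← Real.exp_nat_mul, mul_div_assoc, mul_neg]

theorem pair_le {k n y s s' : ℕ} (P : Par k n y) {V : Finset α} (hV : V.card = n)
    {L L' : Finset (Finset α)} (hL : L ⊆ powersetCard s V) (hL' : L' ⊆ powersetCard s' V)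
    (hs : k ≤ s + 2 * y) (hs' : k ≤ s' + 2 * y) (ks : s ≤ k) (ks' : s' ≤ k) (hc : Cross L L')
    {x : ℝ} (x0 : 0 ≤ x) (h3 : ∀ S : Finset α, S.card = 3 → (dg L' S : ℝ) ≤ x) {a b : α}
    (h : Sim (1 / (k : ℝ) ^ 10 * nu n (s - 1)) L a b) :
    (dg L' {a, b} : ℝ) ≤ 1 / (k : ℝ) ^ 10 * nu n (s' - 2) + y * x := by
  have hI := (inter_subset_left (s₂ := lk L {b})).trans (lk_sub hL {a})
  have hJ := lk_sub hL' {a, b}
  rw [card_singleton] at hI
  rw [card_pair h.1] at hJ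
  obtain ⟨T, t1, t2⟩ := exists_cover P hV hI hJ (by omega) (by omega) (by omega) (by omega)
    (fun X hX Y hY hd => by
      obtain ⟨a1, a2⟩ := mem_lk1.1 (mem_inter.1 hX).1
      obtain ⟨b1, b2⟩ := mem_lk1.1 (mem_inter.1 hX).2
      refine hc X a b h.1 a1 b1 a2 b2 _ (mem_lk.1 hY).2 (by simp) (by simp) ?_
      rw [disjoint_union_left]
      exact ⟨hd.symm, by simp [a1, b1]⟩) h.2
  have h1 := card_le_av' (lk L' {a, b}) T (x := x) fun u _ => by
    by_cases hu : Disjoint {u} ({a, b} : Finset α)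
    · refine le_trans (by exact_mod_cast dg_lk L' {a, b} {u}) (h3 _ ?_)
      rw [card_union_of_disjoint hu, card_singleton, card_pair h.1]
    · rw [dg_lk_zero L' hu, Nat.cast_zero]
      exact x0
  rw [card_lk] at h1
  have h2 : (T.card : ℝ) ≤ y := by exact_mod_cast t1
  nlinarith

theorem sum_rr {k n y s s' : ℕ} (P : Par k n y) {V : Finset α} (hV : V.card = n)
    {L L' : Finset (Finset α)} (hL : L ⊆ powersetCard s V) (hL' : L' ⊆ powersetCard s' V)
    (hs : k ≤ s + 2 * y) (hs' : k ≤ s' + 2 * y) (ks : s ≤ k) (ks' : s' ≤ k) (hc : Cross L L')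
    {Λ : ℝ} (Λ0 : 0 ≤ Λ) (h3 : ∀ S : Finset α, S.card = 3 → (dg L' S : ℝ) ≤ bt k n ^ 3 * Λ) :
    ∑ C ∈ L', ((rr (1 / (k : ℝ) ^ 10 * nu n (s - 1)) L C).card : ℝ) ≤
      21 / 10 * y ^ 2 * (k * (k / n)) * Λ + 3 * y * k * (1 / (k : ℝ) ^ 10) * nu n s' := by
  obtain ⟨z, z1, z2⟩ := P.exists_z
  have k0 := P.kpos
  have n0 := P.npos
  have b0 := P.bt_pos
  have y0 := P.y0
  have y1 := P.hy
  have y2 := P.kyy
  obtain ⟨x, hx⟩ : ∃ x, x = 1 / (k : ℝ) ^ 10 * nu n (s - 1) := ⟨_, rfl⟩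
  obtain ⟨ψ, hψ⟩ : ∃ ψ, ψ = 1 / (k : ℝ) ^ 10 * nu n (s' - 2) + y * (bt k n ^ 3 * Λ) := ⟨_, rfl⟩
  have u1 := nu_pos n0 (s' - 1)
  have u2 := nu_pos n0 (s' - 2)
  have ψ0 : 0 ≤ ψ := by rw [hψ]; positivity
  have h1 : ∀ a b, Sim x L a b → (dg L' {a, b} : ℝ) ≤ ψ := fun a b h =>
    hψ ▸ pair_le P hV hL hL' hs hs' ks ks' hc (by positivity) h3 (hx ▸ h)
  rw [← hx]
  have h2 : ∀ a ∈ V, ((L'.filter fun C => a ∈ rr x L C).card : ℝ) ≤
      1 / (k : ℝ) ^ 10 * nu n (s' - 1) + z * ψ := by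
    intro a _
    have e1 : ∀ Z ⊆ V.filter (Sim x L a), Z.card ≤ z →
        ((L'.filter fun C => a ∈ rr x L C).card : ℝ) ≤
          (av (L'.filter fun C => a ∈ rr x L C) Z).card + z * ψ := by
      intro Z hZ hz
      have e2 := card_le_av' (L'.filter fun C => a ∈ rr x L C) Z (x := ψ) fun b hb => by
        refine le_trans ?_ (h1 a b (mem_filter.1 (hZ hb)).2)
        refine Nat.cast_le.2 (card_le_card fun C hC => ?_)
        obtain ⟨c1, c2⟩ := mem_filter.1 hC
        obtain ⟨c3, c4⟩ := mem_filter.1 c1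
        exact mem_filter.2 ⟨c3, insert_subset (mem_filter.1 c4).1 c2⟩
      have e3 : (Z.card : ℝ) ≤ z := by exact_mod_cast hz
      nlinarith
    rcases le_total (V.filter (Sim x L a)).card z with hz | hz
    · have e2 := e1 _ Subset.rfl hz
      have e3 : av (L'.filter fun C => a ∈ rr x L C) (V.filter (Sim x L a)) = ∅ := by
        refine eq_empty_of_forall_notMem fun C hC => ?_
        obtain ⟨c1, c2⟩ := mem_av.1 hC
        obtain ⟨c3, c4⟩ := mem_filter.1 c1
        obtain ⟨b, c5, c6⟩ := (mem_filter.1 c4).2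
        exact disjoint_left.1 c2 c5 (mem_filter.2 ⟨(mem_powersetCard.1 (hL' c3)).1 c5, c6⟩)
      rw [e3, card_empty, Nat.cast_zero, zero_add] at e2
      exact e2.trans (le_add_of_nonneg_left (by positivity))
    · obtain ⟨Z, e2, e3⟩ := exists_subset_card_eq hz
      refine (e1 Z e2 e3.le).trans (add_le_add ?_ le_rfl)
      have e4 := dg_le_nu (av_sub hL' Z) {a}
      rw [card_singleton] at e4
      refine le_trans ?_ (e4.trans (P.nu_far hV (e2.trans (filter_subset _ _)) (e3 ▸ z1) (by omega)))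
      refine Nat.cast_le.2 (card_le_card fun C hC => ?_)
      obtain ⟨c1, c2⟩ := mem_av.1 hC
      obtain ⟨c3, c4⟩ := mem_filter.1 c1
      exact mem_filter.2 ⟨mem_av.2 ⟨c3, c2⟩, singleton_subset_iff.2 (mem_filter.1 c4).1⟩
  have h4 : ∑ C ∈ L', (rr x L C).card = ∑ a ∈ V, (L'.filter fun C => a ∈ rr x L C).card := by
    simp only [card_filter]
    rw [sum_comm]
    refine sum_congr rfl fun C hC => ?_
    have : rr x L C ⊆ V := (filter_subset _ _).trans (mem_powersetCard.1 (hL' hC)).1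
    rw [← card_filter, filter_mem_eq_inter, inter_eq_right.2 this]
  have h5 := sum_le_card_nsmul _ _ _ h2
  rw [nsmul_eq_mul, hV, ← Nat.cast_sum, ← h4, Nat.cast_sum] at h5
  refine h5.trans ?_
  have u0 := nu_pos n0 s'
  have v1 := nu_sub n0 ks' 1 (by omega)
  have v2 := nu_sub n0 ks' 2 (by omega)
  have t0 : (0 : ℝ) < 1 / (k : ℝ) ^ 10 := by positivity
  generalize 1 / (k : ℝ) ^ 10 = τ at *
  calc (n : ℝ) * (τ * nu n (s' - 1) + z * ψ)
      ≤ n * (τ * ((k / n) ^ 1 * nu n s') + 2 * (y * n / k) *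
        (τ * ((k / n) ^ 2 * nu n s') + y * (bt k n ^ 3 * Λ))) := by
        rw [hψ]
        gcongr
    _ = 2 * (101 / 100) ^ 3 * (y ^ 2 * (k * (k / n)) * Λ) + (1 + 2 * y) * (k * τ * nu n s') := by
        unfold bt
        field_simp
        ring
    _ ≤ 21 / 10 * (y ^ 2 * (k * (k / n)) * Λ) + 3 * y * (k * τ * nu n s') := by
        gcongr
        · norm_num
        · linarith
    _ = _ := by ring

end Pool.Agent.MP_6574cc_co.H13
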