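import Pool.Agent.MP_6574cc_co.H13.Dense

/-! Spread families without a generalized triangle are smaller than a star. -/

namespace Pool.Agent.MP_6574cc_co.H13

open Finset
open scoped Classical

variable {α : Type*} [DecidableEq α]

theorem lk_mono {F F' : Finset (Finset α)} (h : F ⊆ F') (T : Finset α) : lk F T ⊆ lk F' T :=
  fun _ hZ => mem_lk.2 ⟨(mem_lk.1 hZ).1, h (mem_lk.1 hZ).2⟩

theorem nu_add_one {x : ℝ} (hx : 0 ≤ x) (s : ℕ) : nu x (s + 1) + nu x s ≤ nu (x + 1) (s + 1) := by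
  have h := H69.pow_succ_ge x hx s
  have e : nu x (s + 1) + nu x s = (x ^ (s + 1) + (s + 1) * x ^ s) / (s + 1).factorial := by
    unfold nu
    rw [Nat.factorial_succ]
    push_cast
    field_simp
  rw [e, nu]
  gcongr

theorem choose_ge {n : ℕ} (hn : 0 < n) (k : ℕ) (hk : k ≤ n) :
    (1 - (k : ℝ) ^ 2 / (2 * n)) * nu n k ≤ n.choose k := by
  have n0 : (0 : ℝ) < n := by exact_mod_cast hn
  induction k with
  | zero => simp [nu]
  | succ k ih =>
    have h1 := ih (by omega)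
    have h2 : (n.choose (k + 1) : ℝ) * (k + 1) = n.choose k * (n - k) := by
      have := congrArg (Nat.cast : ℕ → ℝ) (Nat.choose_succ_right_eq n k)
      rwa [Nat.cast_mul, Nat.cast_mul, Nat.cast_sub (by omega), Nat.cast_add, Nat.cast_one] at this
    have h3 := nu_succ n k
    have h4 : (k : ℝ) ≤ n := by exact_mod_cast (show k ≤ n by omega)
    have h5 := mul_le_mul_of_nonneg_right h1 (sub_nonneg.2 h4)
    have h6 := nu_pos n0 k
    have h7 : (1 - ((k : ℝ) + 1) ^ 2 / (2 * n)) * n ≤ (1 - (k : ℝ) ^ 2 / (2 * n)) * (n - k) := by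
      have : (1 - (k : ℝ) ^ 2 / (2 * n)) * (n - k) - (1 - ((k : ℝ) + 1) ^ 2 / (2 * n)) * n =
          1 / 2 + k ^ 3 / (2 * n) := by field_simp; ring
      have : (0 : ℝ) ≤ k ^ 3 / (2 * n) := by positivity
      linarith
    refine le_of_mul_le_mul_right ?_ (show (0 : ℝ) < k + 1 by positivity)
    push_cast
    rw [h2, mul_assoc, mul_comm (nu _ _), h3]
    nlinarith

theorem star_eq {n k : ℕ} (hn : 0 < n) (hk : 0 < k) :
    ((n - 1).choose (k - 1) : ℝ) = k / n * n.choose k := by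
  obtain ⟨n, rfl⟩ : ∃ m, n = m + 1 := ⟨n - 1, by omega⟩
  obtain ⟨k, rfl⟩ : ∃ m, k = m + 1 := ⟨k - 1, by omega⟩
  have := congrArg (Nat.cast : ℕ → ℝ) (Nat.add_one_mul_choose_eq n k)
  push_cast at this ⊢
  field_simp
  linarith

theorem rob_min {F : Finset (Finset α)} {U : Finset α} {s m : ℕ} (hs : 2 ≤ s)
    (hF : F ⊆ powersetCard (s + 1) U) {x : ℝ} (x0 : 0 ≤ x)
    (hx : ∀ C ∈ F, ∀ a ∈ C, ∀ b ∈ C, a ≠ b → ((lk F {a} ∩ lk F {b}).card : ℝ) ≤ x)
    (hm : 1 ≤ m * (Real.exp (-1) / (s * (s - 1) / 2))) (hne : U.Nonempty) :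
    ∃ t ∈ U, (dg F {t} : ℝ) ≤ Real.exp (-1) / (s * (s - 1) / 2) * nu U.card s + m * x := by
  obtain ⟨T, hT⟩ : ∃ T : α → α → Prop, T = fun a b => a = b ∨ ¬ ∃ C ∈ F, a ∈ C ∧ b ∈ C := ⟨_, rfl⟩
  have hr : ∀ a, T a a := fun a => hT ▸ Or.inl rfl
  have hsy : ∀ a b, T a b → T b a := by
    subst hT
    rintro a b (h | h)
    · exact Or.inl h.symm
    · exact Or.inr fun ⟨C, h1, h2, h3⟩ => h ⟨C, h1, h3, h2⟩
  obtain ⟨R, hRU, hRi, hRpos, hmax⟩ := H69.exists_max_indep T U hne
  have hz := H69.zykov hr hsy hsy (fun _ _ h => h) U R.card hRpos hmax 0 0 U.card le_rfl le_rfl s U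
    Subset.rfl (Or.inl rfl)
  have m0 : 0 < m := Nat.pos_of_ne_zero fun e => by simp [e] at hm; linarith
  obtain ⟨R', r1, r2⟩ := exists_subset_card_eq (min_le_left R.card m)
  have r3 : 0 < R'.card := by omega
  have h1 := bonferroni (fun a => lk F {a}) x0 R' fun a ha b hb hab => by
    have h3 : ¬ T a b := fun h => hab (hRi a (r1 ha) b (r1 hb) h)
    simp only [hT, not_or, not_not] at h3
    obtain ⟨C, c1, c2, c3⟩ := h3.2
    exact hx C c1 a c2 b c3 hab
  have hsub : R'.biUnion (fun a => lk F {a}) ⊆ H69.Ind T U s := by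
    intro Z hZ
    obtain ⟨t, -, ht⟩ := mem_biUnion.1 hZ
    obtain ⟨h1, h2⟩ := mem_powersetCard.1 (lk_sub hF {t} ht)
    refine H69.mem_Ind.2 ⟨h1, by simpa using h2, ?_⟩
    subst hT
    rintro a ha b hb (h | h)
    · exact h
    · exact absurd ⟨_, (mem_lk.1 ht).2, mem_union_left _ ha, mem_union_left _ hb⟩ h
  obtain ⟨t, ht, hmin⟩ := exists_min_image R' (fun t => ((lk F {t}).card : ℝ)) (card_pos.1 r3)
  have h2 := card_nsmul_le_sum _ _ _ hmin
  rw [nsmul_eq_mul, card_lk] at h2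
  have hs' : (2 : ℝ) ≤ s := by exact_mod_cast hs
  have ha : (0 : ℝ) < s * (s - 1) / 2 := by
    have : (0 : ℝ) < s - 1 := by linarith
    positivity
  have u0 := nu_nonneg (Nat.cast_nonneg U.card) s
  have h3 : ((H69.Ind T U s).card : ℝ) ≤
      R'.card * (Real.exp (-1) / (s * (s - 1) / 2)) * nu U.card s := by
    rcases le_total R.card m with h | h
    · have e1 := H69.exp_div_le ha (show (0 : ℝ) < R.card by exact_mod_cast hRpos)
      rw [add_zero, mul_one_div] at hz
      rw [r2, min_eq_left h, nu, ← mul_div_assoc, le_div_iff₀' (by positivity), mul_comm _ (_ ^ s)]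
      exact hz.trans (mul_le_mul_of_nonneg_left e1 (by positivity))
    · rw [r2, min_eq_right h]
      exact (card_le_nu (filter_subset _ _)).trans (le_mul_of_one_le_left u0 hm)
  have h4 : ((R'.biUnion fun a => lk F {a}).card : ℝ) ≤ (H69.Ind T U s).card := by
    exact_mod_cast card_le_card hsub
  have h5 : (R'.card : ℝ) ≤ m := by exact_mod_cast r2 ▸ min_le_right _ _
  have h6 : (0 : ℝ) < R'.card := by exact_mod_cast r3
  refine ⟨t, hRU (r1 ht), le_of_mul_le_mul_left ?_ h6⟩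
  have h7 := mul_le_mul_of_nonneg_left h5 (mul_nonneg h6.le x0)
  nlinarith only [h1, h2, h3, h4, h7]

theorem rob_upper {s m : ℕ} (hs : 2 ≤ s) {x : ℝ} (x0 : 0 ≤ x)
    (hm : 1 ≤ m * (Real.exp (-1) / (s * (s - 1) / 2))) (U : Finset α) :
    ∀ F ⊆ powersetCard (s + 1) U,
      (∀ C ∈ F, ∀ a ∈ C, ∀ b ∈ C, a ≠ b → ((lk F {a} ∩ lk F {b}).card : ℝ) ≤ x) →
      (F.card : ℝ) ≤ Real.exp (-1) / (s * (s - 1) / 2) * nu (U.card + 1) (s + 1) +
        U.card * (m * x) := by
  have hs' : (2 : ℝ) ≤ s := by exact_mod_cast hs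
  have hu : 0 < Real.exp (-1) / (s * (s - 1) / 2) := by
    have : (0 : ℝ) < s - 1 := by linarith
    positivity
  induction U using Finset.strongInduction with
  | H U ih =>
  intro F hF hx
  rcases U.eq_empty_or_nonempty with rfl | hne
  · rw [powersetCard_eq_empty.2 (by simp), subset_empty] at hF
    have := nu_nonneg (show (0 : ℝ) ≤ 1 by norm_num) (s + 1)
    simp only [hF, card_empty, Nat.cast_zero, zero_add, zero_mul, add_zero]
    positivity
  obtain ⟨t, ht, h1⟩ := rob_min hs hF x0 hx hm hne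
  have h2 := ih (U \ {t}) (sdiff_ssubset (singleton_subset_iff.2 ht) (singleton_nonempty t)) _
    (av_sub hF {t}) fun C hC a ha b hb hab => le_trans (Nat.cast_le.2 (card_le_card
      (inter_subset_inter (lk_mono (av_subset _ _) _) (lk_mono (av_subset _ _) _))))
      (hx C (av_subset _ _ hC) a ha b hb hab)
  have h3 : ((U \ {t}).card : ℝ) + 1 = U.card := by
    rw [sdiff_singleton_eq_erase]
    exact_mod_cast card_erase_add_one ht
  have h4 := card_le_av' F {t} fun u hu => mem_singleton.1 hu ▸ h1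
  have h5 := mul_le_mul_of_nonneg_left (nu_add_one (Nat.cast_nonneg U.card) s) hu.le
  rw [h3, eq_sub_of_add_eq h3] at h2
  rw [card_singleton, Nat.cast_one, one_mul] at h4
  linarith

theorem num_spread {K p t c : ℝ} (t1 : t ≤ 1 / 100000) (K0 : 0 < K)
    (K1 : 100000 ≤ t * K) (p0 : 0 < p) (p1 : K * p ≤ 10 / 9) (c0 : 0 < c) (c1 : c ≤ 37 / 100)
    (h : 2 * c * (1 + 5 * t) ≤ K ^ 2 * p) :
    c / ((K - 1) * (K - 1 - 1) / 2) * (1 + 2 * p) + 2 * (p * t) ≤ p * (1 - K * p / 2) := by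
  have t0 : 0 < t := by nlinarith
  have K2 : 100000 ≤ K := by nlinarith
  have h1 : c / ((K - 1) * (K - 1 - 1) / 2) * K ^ 2 ≤ 2 * c * (1 + t / 10) := by
    have e0 : 0 < (K - 1) * (K - 1 - 1) / 2 := by
      have : 0 < K - 1 - 1 := by linarith
      have : 0 < K - 1 := by linarith
      positivity
    rw [div_mul_eq_mul_div, div_le_iff₀ e0]
    have e1 : K ^ 2 ≤ (1 + t / 10) * ((K - 1) * (K - 1 - 1)) := by
      have e2 : K * (K / 2) ≤ (K - 1) * (K - 1 - 1) := by nlinarith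
      have e3 := mul_le_mul_of_nonneg_left e2 t0.le
      nlinarith
    nlinarith
  have h2 : 2 * p ≤ t / 10 := by
    refine le_of_mul_le_mul_left ?_ K0
    nlinarith
  have h3 : c / ((K - 1) * (K - 1 - 1) / 2) * K ^ 2 * (1 + 2 * p) ≤ 2 * c * (1 + t / 4) := by
    calc _ ≤ 2 * c * (1 + t / 10) * (1 + t / 10) := by gcongr
      _ ≤ _ := by
          rw [mul_assoc]
          refine mul_le_mul_of_nonneg_left ?_ (by positivity)
          nlinarith
  refine le_of_mul_le_mul_right ?_ (show 0 < K ^ 2 by positivity)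
  obtain ⟨q, hq⟩ : ∃ q, q = K ^ 2 * p := ⟨_, rfl⟩
  have q0 : 0 < q := by rw [hq]; positivity
  have h4 : 2 * c * (1 + t / 4) + 2 * t * q ≤ q * (1 - K * p / 2) := by
    rw [← hq] at h
    rcases le_total 3 q with h5 | h5
    · nlinarith
    · have h6 : K * p / 2 ≤ t := by
        refine le_of_mul_le_mul_left ?_ K0
        nlinarith
      have h7 : 2 * c * (1 + t / 4) ≤ q * (1 - 3 * t) := by
        have h8 : 1 + t / 4 ≤ (1 + 5 * t) * (1 - 3 * t) := by nlinarith
        have h9 := mul_le_mul_of_nonneg_left h8 (show 0 ≤ 2 * c by positivity)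
        have h10 := mul_le_mul_of_nonneg_right h (show 0 ≤ 1 - 3 * t by linarith)
        linarith
      nlinarith
  rw [hq] at h4
  linarith

theorem Par.star_ge {k n y : ℕ} (P : Par k n y) :
    k / n * (1 - k * (k / n) / 2) * nu n k ≤ (n - 1).choose (k - 1) := by
  have k0 := P.kpos
  have n0 := P.npos
  have h1 := P.n1
  have h2 := P.kyy
  have h3 := P.hy
  have h4 := choose_ge (n := n) (by exact_mod_cast n0) k (by nlinarith)
  rw [star_eq (by exact_mod_cast n0) (by exact_mod_cast k0), mul_assoc]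
  refine mul_le_mul_of_nonneg_left (le_trans (le_of_eq ?_) h4) (by positivity)
  congr 2
  field_simp

theorem spread_le {k n y : ℕ} (P : Par k n y) (hn : n * (1 + 5 / y) ≤ Real.exp 1 / 2 * k ^ 3)
    {V : Finset α} (hV : V.card = n) {H : Finset (Finset α)} (hH : H ⊆ powersetCard k V)
    (hc : Cross H H)
    (h3 : ∀ S : Finset α, S.card = 3 → (dg H S : ℝ) ≤ bt k n ^ 3 * (y ^ 5 / k ^ 2 * nu n k)) :
    H.card ≤ (n - 1).choose (k - 1) := by
  have k0 := P.kpos
  have n0 := P.npos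
  have y0 := P.y0
  have y1 := P.hy
  have y2 := P.kyy
  have k1 := P.k0
  have k2 : (1 : ℝ) ≤ k := by linarith
  have u0 := nu_pos n0 k
  have u1 := nu_pos n0 (k - 1)
  have h1 := sum_rr P hV hH hH (by omega) (by omega) le_rfl le_rfl hc (by positivity) h3
  obtain ⟨x, hx⟩ : ∃ x, x = 1 / (k : ℝ) ^ 10 * nu n (k - 1) := ⟨_, rfl⟩
  rw [← hx] at h1
  have x0 : 0 ≤ x := by rw [hx]; positivity
  have h2 : (H.card : ℝ) ≤
      (H.filter fun C => rr x H C = ∅).card + ∑ C ∈ H, ((rr x H C).card : ℝ) := by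
    have e1 := card_filter_add_card_filter_not (s := H) fun C => rr x H C = ∅
    have e2 := card_nsmul_le_sum (H.filter fun C => ¬ rr x H C = ∅) (fun C => (rr x H C).card) 1
      fun C hC => card_pos.2 (nonempty_iff_ne_empty.2 (mem_filter.1 hC).2)
    have e3 := e2.trans (sum_le_sum_of_subset (filter_subset _ H))
    rw [smul_eq_mul, mul_one] at e3
    exact_mod_cast (show H.card ≤ _ + ∑ C ∈ H, (rr x H C).card by omega)
  have c1 : Real.exp (-1) ≤ 37 / 100 := Real.exp_neg_one_lt_d9.le.trans (by norm_num)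
  have c2 : 36 / 100 ≤ Real.exp (-1) := le_trans (by norm_num) Real.exp_neg_one_gt_d9.le
  have e0 : ((k - 1 : ℕ) : ℝ) = k - 1 := by rw [Nat.cast_sub (by omega), Nat.cast_one]
  have h4 := rob_upper (s := k - 1) (m := 2 * k ^ 2) (by omega) x0 (by
      rw [e0, ← mul_div_assoc, le_div_iff₀ (by nlinarith only [k1, y0])]
      push_cast
      nlinarith only [c2, k2]) V (H.filter fun C => rr x H C = ∅)
    (by rw [Nat.sub_add_cancel (by omega)]; exact (filter_subset _ _).trans hH)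
    fun C hC a ha b hb hab => by
      refine le_trans (Nat.cast_le.2 (card_le_card (inter_subset_inter
        (lk_mono (filter_subset _ _) _) (lk_mono (filter_subset _ _) _)))) (not_le.1 fun e => ?_).le
      exact notMem_empty a ((mem_filter.1 hC).2 ▸ mem_filter.2 ⟨ha, b, hb, hab, e⟩)
  rw [Nat.sub_add_cancel (by omega), hV, e0] at h4
  obtain ⟨p, hp⟩ : ∃ p : ℝ, p = k / n := ⟨_, rfl⟩
  have p0 : 0 < p := by rw [hp]; positivity
  have p1 : k * p ≤ 10 / 9 := by
    have := P.p_le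
    rw [le_div_iff₀ k0, ← hp] at this
    linarith
  have h5 : nu (n + 1) k ≤ (1 + 2 * p) * nu n k := by
    have e1 : (n : ℝ) + 1 ≤ Real.exp (1 / n) * n := by
      have := mul_le_mul_of_nonneg_right (Real.add_one_le_exp (1 / (n : ℝ))) n0.le
      rw [add_mul, one_div_mul_cancel n0.ne'] at this
      linarith
    refine (nu_mono (by positivity) e1 k).trans ?_
    unfold nu
    rw [mul_pow, ← Real.exp_nat_mul, mul_one_div, ← hp, mul_div_assoc]
    refine mul_le_mul_of_nonneg_right ?_ (by positivity)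
    have e2 : p ≤ 1 := by nlinarith only [p1, k1, y0, p0]
    have e3 := Real.abs_exp_sub_one_le (x := p) (by rwa [abs_of_pos p0])
    rw [abs_of_pos p0] at e3
    linarith [le_abs_self (Real.exp p - 1)]
  have h6 := num_spread (K := k) (p := p) (t := 1 / y) (c := Real.exp (-1))
    (one_div_le_one_div_of_le (by norm_num) y0) k0
    (by rw [one_div_mul_eq_div, le_div_iff₀ (by positivity)]; exact k1) p0 p1 (Real.exp_pos _) c1 (by
      rw [hp, mul_one_div, ← mul_div_assoc, le_div_iff₀ n0]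
      have e1 := mul_le_mul_of_nonneg_left hn (show 0 ≤ 2 * Real.exp (-1) by positivity)
      have e2 : Real.exp (-1) * Real.exp 1 = 1 := by rw [← Real.exp_add]; simp
      have e3 : 2 * Real.exp (-1) * (Real.exp 1 / 2 * (k : ℝ) ^ 3) = k ^ 2 * k := by
        linear_combination (k : ℝ) ^ 3 * e2
      linarith)
  have h7 := P.star_ge
  rw [← hp] at h7 h1
  have h8 : (n : ℝ) * ((2 * k ^ 2 : ℕ) * x) ≤ 2 * k ^ 3 * (1 / (k : ℝ) ^ 10) * nu n k := by
    have v1 := nu_sub n0 (le_refl k) 1 (by omega)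
    calc _ ≤ (n : ℝ) * ((2 * k ^ 2 : ℕ) * (1 / (k : ℝ) ^ 10 * ((k / n) ^ 1 * nu n k))) := by
          rw [hx]
          gcongr
      _ = _ := by
          push_cast
          field_simp
  have h9 : 21 / 10 * y ^ 2 * (k * p) * (y ^ 5 / k ^ 2) ≤ p * (1 / y) := by
    have e1 : (y : ℝ) * y ^ 8 ≤ k := by
      rw [← pow_succ']
      exact P.ky 9 (by norm_num)
    have e2 : 21 / 10 * y ^ 2 * (k * p) * (y ^ 5 / k ^ 2) = p * (21 / 10 * y ^ 7 / k) := by
      field_simp
    rw [e2]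
    refine mul_le_mul_of_nonneg_left ?_ p0.le
    rw [div_le_div_iff₀ k0 (by positivity)]
    have e3 : (0 : ℝ) ≤ y ^ 8 := by positivity
    nlinarith only [e1, e3, y0]
  have h10 : (3 * y * k + 2 * k ^ 3) * (1 / (k : ℝ) ^ 10) ≤ p * (1 / y) := by
    have e1 := P.le_p
    rw [← hp] at e1
    refine le_trans ?_ (mul_le_mul_of_nonneg_right e1 (by positivity))
    rw [mul_one_div, div_mul_div_comm, div_le_div_iff₀ (by positivity) (by positivity)]
    have e2 : (k : ℝ) ^ 7 ≤ k ^ 10 := pow_le_pow_right₀ k2 (by norm_num)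
    have e3 : (y : ℝ) ≤ k := by linarith
    calc (3 * (y : ℝ) * k + 2 * k ^ 3) * (2 * k ^ 2 * y)
        ≤ (3 * (k * k) * k + 2 * k ^ 3) * (2 * k ^ 2 * k) := by
          gcongr
          nlinarith only [e3, k2]
      _ = 10 * (k : ℝ) ^ 6 := by ring
      _ ≤ k * (k : ℝ) ^ 6 := by gcongr; linarith
      _ ≤ _ := by linarith
  have h11 := mul_le_mul_of_nonneg_right h6 u0.le
  have h12 := mul_le_mul_of_nonneg_right h9 u0.le
  have h13 := mul_le_mul_of_nonneg_right h10 u0.le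
  have h14 := mul_le_mul_of_nonneg_left h5
    (show 0 ≤ Real.exp (-1) / ((k - 1) * (k - 1 - 1) / 2) by
      have : (0 : ℝ) < k - 1 - 1 := by linarith
      have : (0 : ℝ) < k - 1 := by linarith
      positivity)
  refine Nat.cast_le (α := ℝ) |>.1 ?_
  linarith

end Pool.Agent.MP_6574cc_co.H13
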