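import Pool.Agent.MP_6574cc_co.H13.Spread

/-! A large family without a generalized triangle is close to a star, hence inside a star. -/

namespace Pool.Agent.MP_6574cc_co.H13

open Finset
open scoped Classical

variable {α : Type*} [DecidableEq α]

theorem Par.nu_pred {k n y : ℕ} (P : Par k n y) : nu n (k - 1) = k / n * nu n k := by
  have h := nu_succ n (k - 1)
  have k0 : 1 ≤ k := by exact_mod_cast P.kpos
  have n0 := P.npos
  rw [Nat.sub_add_cancel k0, Nat.cast_sub k0, Nat.cast_one, sub_add_cancel] at h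
  rw [div_mul_eq_mul_div, h, mul_div_cancel_left₀ _ n0.ne']

theorem exists_centre {k n y : ℕ} (P : Par k n y) (hn : n * (1 + 5 / y) ≤ Real.exp 1 / 2 * k ^ 3)
    {V : Finset α} (hV : V.card = n) {H : Finset (Finset α)} (hH : H ⊆ powersetCard k V)
    (hc : Cross H H) (hb : (n - 1).choose (k - 1) < H.card) :
    ∃ w ∈ V, ((av H {w}).card : ℝ) ≤ 2 * y ^ 6 / k ^ 2 * nu n (k - 1) := by
  have k0 := P.kpos
  have n0 := P.npos
  have b0 := P.bt_pos
  have y0 := P.y0
  have y1 := P.hy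
  have y2 := P.kyy
  have k1 := P.k0
  have k2 : (1 : ℝ) ≤ k := by linarith
  have y4 : (1 : ℝ) ≤ y := by linarith
  have u0 := nu_pos n0 k
  have u1 := nu_pos n0 (k - 1)
  have v1 := P.nu_pred
  have v2 : 1 / (k : ℝ) ^ 4 * nu n k ≤ 2 / k ^ 2 * nu n (k - 1) := by
    rw [v1, ← mul_assoc]
    refine mul_le_mul_of_nonneg_right (le_trans (le_of_eq ?_)
      (mul_le_mul_of_nonneg_left P.le_p (by positivity))) u0.le
    field_simp
  have v3 : 2 / (k : ℝ) ^ 2 ≤ 1 / 100 / y := by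
    rw [div_le_div_iff₀ (by positivity) (by positivity)]
    nlinarith only [k1, k2, y4]
  have v4 : 1 / 100 / (y : ℝ) ≤ 1 / 100 := div_le_self (by norm_num) y4
  have h1 : 4 / 9 * nu n (k - 1) ≤ H.card := by
    have e1 := P.star_ge
    have e2 := P.p_le
    rw [le_div_iff₀ k0] at e2
    have e3 : ((n - 1).choose (k - 1) : ℝ) ≤ H.card := by exact_mod_cast hb.le
    have e4 := mul_le_mul_of_nonneg_right (show 4 / 9 ≤ 1 - (k : ℝ) * (k / n) / 2 by linarith) u1.le
    rw [v1] at e4 ⊢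
    linarith
  have t1 : 1 / (k : ℝ) ^ 10 ≤ 1 / k ^ 4 :=
    one_div_le_one_div_of_le (by positivity) (pow_le_pow_right₀ k2 (by norm_num))
  obtain ⟨T, hT⟩ := exists_core P hV hH le_rfl (by
    have := mul_le_mul_of_nonneg_right t1 u0.le
    have := mul_le_mul_of_nonneg_right (v3.trans v4) u1.le
    linarith)
  have t2 : (T.card : ℝ) ≤ y := by exact_mod_cast hT.sm
  have h2 : (y : ℝ) ^ 5 / k ^ 2 * nu n (k - T.card) ≤ (lk H T).card := by
    refine not_lt.1 fun h => not_le.2 hb (spread_le P hn hV hH hc fun S hS => ?_)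
    rw [card_lk] at h
    have e1 := hT.mx S
    have e2 := nu_sub n0 (le_refl k) T.card hT.le
    have e3 : (k : ℝ) / n ≤ bt k n := by
      have : (0 : ℝ) < k / n := by positivity
      unfold bt
      linarith
    rw [hS] at e1
    refine le_of_mul_le_mul_right (e1.trans ?_) (show 0 < bt k n ^ T.card by positivity)
    calc bt k n ^ 3 * dg H T ≤ bt k n ^ 3 * (y ^ 5 / k ^ 2 * (bt k n ^ T.card * nu n k)) := by
          gcongr
          refine h.le.trans ?_
          gcongr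
          exact e2.trans (by gcongr)
      _ = _ := by ring
  have h3 := core_big P hV hH hH (by omega) (by omega) le_rfl le_rfl hc hT h2
  obtain ⟨w, -, hw⟩ : ∃ w ∈ T, 2 / 5 / y * nu n (k - 1) ≤ dg H {w} := by
    by_contra h
    have e1 := card_le_av' H T (x := 2 / 5 / y * nu n (k - 1)) fun u hu =>
      (not_le.1 fun e => h ⟨u, hu, e⟩).le
    have e2 := mul_le_mul_of_nonneg_right t2 (show 0 ≤ 2 / 5 / y * nu n (k - 1) by positivity)
    have e3 : y * (2 / 5 / y * nu n (k - 1)) = 2 / 5 * nu n (k - 1) := by field_simp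
    have := mul_le_mul_of_nonneg_right (v3.trans v4) u1.le
    linarith
  have hwV : w ∈ V := by
    obtain ⟨C, c1, c2⟩ := dg_pos (F := H) (S := {w})
      (Nat.cast_pos (α := ℝ) |>.1 (lt_of_lt_of_le (by positivity) hw))
    exact (mem_powersetCard.1 (hH c1)).1 (singleton_subset_iff.1 c2)
  have h4 : ∀ u, (dg (av H {w}) {u} : ℝ) ≤ y ^ 5 / k ^ 2 * nu n (k - 1) := by
    intro u
    refine not_lt.1 fun h => ?_
    rw [← card_lk] at h
    have hF := lk_sub ((av_subset H {w}).trans hH) {u}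
    rw [card_singleton] at hF
    obtain ⟨T', hT'⟩ := exists_core P hV hF (by omega) (le_trans (by
      refine mul_le_mul_of_nonneg_right ?_ u1.le
      exact div_le_div₀ (by positivity) (one_le_pow₀ y4) (by positivity)
        (pow_le_pow_right₀ k2 (by norm_num))) h.le)
    have e1 := core_big P hV hF ((av_subset H {u}).trans hH) (by omega) (by omega) (by omega) le_rfl
      (fun Z a b hab ha hb h1 h2 C hC c1 c2 c3 => by
        obtain ⟨a1, a2⟩ := mem_lk1.1 h1
        obtain ⟨b1, b2⟩ := mem_lk1.1 h2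
        obtain ⟨c4, c5⟩ := mem_av.1 hC
        rw [insert_comm] at a2 b2
        rw [mem_insert, not_or] at a1 b1
        refine hc (insert u Z) a b hab ?_ ?_ (av_subset _ _ a2) (av_subset _ _ b2) C c4 c1 c2 ?_
        · simp [ha, Ne.symm a1.1]
        · simp [hb, Ne.symm b1.1]
        · exact disjoint_insert_right.2 ⟨disjoint_singleton_right.1 c5, c3⟩) hT' (hT'.den' P h.le)
    obtain ⟨D, d1, d2⟩ := dg_pos hT'.pos
    have d3 := disjoint_singleton_right.1 (mem_av.1 (mem_lk1.1 d1).2).2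
    have e2 := card_le_av' (H.filter fun C => {w} ⊆ C) (insert u T') (x := nu n (k - 2))
      fun v hv => by
        have e3 := dg_le_nu hH {w, v}
        have e4 : w ≠ v := fun e => d3 (by rw [e]; exact insert_subset_insert u d2 hv)
        rw [card_pair e4, hV] at e3
        refine le_trans (Nat.cast_le.2 (card_le_card fun C hC => ?_)) e3
        obtain ⟨c1, c2⟩ := mem_filter.1 hC
        obtain ⟨c3, c4⟩ := mem_filter.1 c1
        exact mem_filter.2 ⟨c3, insert_subset (singleton_subset_iff.1 c4) c2⟩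
    have e3 : ((av (H.filter fun C => {w} ⊆ C) (insert u T')).card : ℝ) ≤
        (av (av H {u}) T').card := by
      refine Nat.cast_le.2 (card_le_card fun C hC => ?_)
      obtain ⟨c1, c2⟩ := mem_av.1 hC
      obtain ⟨c3, c4⟩ := disjoint_insert_right.1 c2
      exact mem_av.2 ⟨mem_av.2 ⟨(mem_filter.1 c1).1, disjoint_singleton_right.2 c3⟩, c4⟩
    have e4 : ((insert u T').card : ℝ) ≤ 2 * y := by
      have := hT'.sm
      exact_mod_cast (card_insert_le _ _).trans (show T'.card + 1 ≤ 2 * y by omega)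
    have e5 := nu_sub n0 (show k - 1 ≤ k by omega) 1 (by omega)
    have e6 : 2 * y * ((k : ℝ) / n) ≤ 1 / 100 / y := by
      have e7 : (100000 : ℝ) * y ^ 2 ≤ k := by exact_mod_cast P.kyy2
      refine (mul_le_mul_of_nonneg_left P.p_le (by positivity)).trans ?_
      rw [← mul_div_assoc, div_le_div_iff₀ k0 (by positivity)]
      nlinarith only [e7, y4]
    have e7 : ((insert u T').card : ℝ) * nu n (k - 2) ≤ 1 / 100 / y * nu n (k - 1) := by
      calc _ ≤ 2 * y * ((k / n) ^ 1 * nu n (k - 1)) :=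
            mul_le_mul e4 e5 (nu_nonneg n0.le _) (by positivity)
        _ = 2 * y * ((k : ℝ) / n) * nu n (k - 1) := by ring
        _ ≤ _ := by gcongr
    have e8 := mul_le_mul_of_nonneg_right v3 u1.le
    have e9 : 2 / 5 / y * nu n (k - 1) = 40 * (1 / 100 / y * nu n (k - 1)) := by ring
    have e10 : 0 < 1 / 100 / y * nu n (k - 1) := by positivity
    have e11 : (dg H {w} : ℝ) = (H.filter fun C => {w} ⊆ C).card := rfl
    linarith
  refine ⟨w, hwV, ?_⟩
  have h5 := card_le_av' (av H {w}) T fun u _ => h4 u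
  have h6 : ((av (av H {w}) T).card : ℝ) ≤ (av H T).card :=
    Nat.cast_le.2 (card_le_card (filter_subset_filter _ (av_subset _ _)))
  have h7 := mul_le_mul_of_nonneg_right t2 (show 0 ≤ y ^ 5 / k ^ 2 * nu n (k - 1) by positivity)
  have h8 : 2 / (k : ℝ) ^ 2 * nu n (k - 1) ≤ y ^ 6 / k ^ 2 * nu n (k - 1) := by
    gcongr
    exact le_trans (by linarith) (le_self_pow₀ y4 (by norm_num))
  have h9 : y * (y ^ 5 / k ^ 2 * nu n (k - 1)) = y ^ 6 / k ^ 2 * nu n (k - 1) := by ring
  have h10 : 2 * y ^ 6 / k ^ 2 * nu n (k - 1) = 2 * (y ^ 6 / k ^ 2 * nu n (k - 1)) := by ring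
  linarith

theorem lk_sub' {F : Finset (Finset α)} {V : Finset α} {s : ℕ} (hF : F ⊆ powersetCard s V)
    (T : Finset α) : lk F T ⊆ powersetCard (s - T.card) (V \ T) := by
  intro Z hZ
  obtain ⟨h1, h2⟩ := mem_powersetCard.1 (lk_sub hF T hZ)
  exact mem_powersetCard.2 ⟨subset_sdiff.2 ⟨h1, (mem_lk.1 hZ).1⟩, h2⟩

theorem dg_le_choose {F : Finset (Finset α)} {V : Finset α} {s : ℕ} (hF : F ⊆ powersetCard s V)
    {a : α} (ha : a ∈ V) : dg F {a} ≤ (V.card - 1).choose (s - 1) := by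
  have h := card_le_card (lk_sub' hF {a})
  rwa [card_lk, card_powersetCard, sdiff_singleton_eq_erase, card_erase_of_mem ha] at h

theorem dg_split (F : Finset (Finset α)) {a w : α} (h : a ≠ w) :
    dg F {a} ≤ dg (lk F {w}) {a} + dg (av F {w}) {a} := by
  have h1 : lk F {a} ⊆ (lk (lk F {w}) {a}).image (insert w) ∪ lk (av F {w}) {a} := by
    intro Z hZ
    obtain ⟨z1, z2⟩ := mem_lk1.1 hZ
    by_cases hw : w ∈ Z
    · refine mem_union_left _ (mem_image.2 ⟨Z.erase w, mem_lk1.2 ⟨by simp [z1], mem_lk1.2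
        ⟨by simp [h.symm], ?_⟩⟩, insert_erase hw⟩)
      rwa [insert_comm, insert_erase hw]
    · exact mem_union_right _ (mem_lk1.2 ⟨z1, mem_av.2 ⟨z2, by simp [hw, h.symm]⟩⟩)
  simp only [← card_lk]
  exact (card_le_card h1).trans ((card_union_le _ _).trans (Nat.add_le_add_right card_image_le _))

theorem Par.phi_ge {k n y : ℕ} (P : Par k n y) :
    nu n (k - 2) ≤ 30 * (n - 1 - k).choose (k - 2) := by
  have k0 := P.kpos
  have n0 := P.npos
  have y0 := P.y0
  have k1 := P.k0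
  have h1 := P.n1
  have h2 := P.kyy
  have h3 := P.hy
  have h4 := P.n1'
  have k3 : 3 * k ≤ n := by nlinarith
  have k4 : (100000 : ℝ) ≤ k := by nlinarith
  have h5 := choose_ge (n := n - 1 - k) (by omega) (k - 2) (by omega)
  have e1 : ((n - 1 - k : ℕ) : ℝ) = (1 - (k + 1) / n) * n := by
    rw [Nat.sub_sub, Nat.cast_sub (by omega)]
    push_cast
    field_simp
    ring
  have x0 : (0 : ℝ) ≤ (k + 1) / n := by positivity
  have x1 : (k : ℝ) * ((k + 1) / n) ≤ 112 / 100 := by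
    rw [← mul_div_assoc, div_le_iff₀ n0]
    nlinarith
  have x2 : ((k : ℝ) + 1) / n ≤ 1 / 1000 := by nlinarith
  have h6 : 2 / 5 ≤ 1 - ((k - 2 : ℕ) : ℝ) ^ 2 / (2 * (n - 1 - k : ℕ)) := by
    have e2 : ((k - 2 : ℕ) : ℝ) ≤ k := by exact_mod_cast Nat.sub_le k 2
    have e3 := pow_le_pow_left₀ (Nat.cast_nonneg _) e2 2
    have e4 : 999 / 1000 * (n : ℝ) ≤ (n - 1 - k : ℕ) := by
      rw [e1]
      nlinarith
    rw [le_sub_comm, div_le_iff₀ (by linarith)]
    linarith
  have h7 : 1 / 6 ≤ (1 - ((k : ℝ) + 1) / n) ^ (k - 2) := by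
    have e2 := one_add_mul_le_pow (a := -(((k : ℝ) + 1) / n)) (by linarith) (k / 2)
    have e3 : ((k / 2 : ℕ) : ℝ) ≤ k / 2 := Nat.cast_div_le
    have e4 := mul_le_mul_of_nonneg_right e3 x0
    have e5 : 44 / 100 ≤ (1 - ((k : ℝ) + 1) / n) ^ (k / 2) := by
      rw [sub_eq_add_neg]
      linarith
    refine le_trans ?_ (pow_le_pow_of_le_one (by linarith) (by linarith)
      (show k - 2 ≤ k / 2 * 2 by omega))
    rw [pow_mul]
    nlinarith
  have h8 : nu (n - 1 - k : ℕ) (k - 2) = (1 - ((k : ℝ) + 1) / n) ^ (k - 2) * nu n (k - 2) := by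
    rw [e1, nu, nu, mul_pow, mul_div_assoc]
  have u0 := nu_pos n0 (k - 2)
  have h9 := mul_le_mul h6 (mul_le_mul_of_nonneg_right h7 u0.le) (by positivity) (by linarith)
  rw [← h8] at h9
  linarith

theorem inside_star {k n y : ℕ} (P : Par k n y) {V : Finset α} (hV : V.card = n)
    {H : Finset (Finset α)} (hH : H ⊆ powersetCard k V) (hc : Cross H H) {w : α} (hw : w ∈ V)
    (hB : ((av H {w}).card : ℝ) ≤ 2 * y ^ 6 / k ^ 2 * nu n (k - 1))
    (hm : ∀ a ∈ V, (n - 2).choose (k - 2) < dg H {a}) : av H {w} = ∅ := by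
  have k0 := P.kpos
  have n0 := P.npos
  have y0 := P.y0
  have y1 := P.hy
  have y2 := P.kyy
  have k1 := P.k0
  have hW : (V \ {w}).card = n - 1 := by rw [sdiff_singleton_eq_erase, card_erase_of_mem hw, hV]
  have hA := lk_sub' hH {w}
  have hB' := av_sub hH {w}
  rw [card_singleton] at hA
  obtain ⟨M, hM⟩ : ∃ M, M = powersetCard (k - 1) (V \ {w}) \ lk H {w} := ⟨_, rfl⟩
  have hM' : M ⊆ powersetCard (k - 1) (V \ {w}) := hM ▸ sdiff_subset
  have h1 : ∀ a ∈ V \ {w}, dg M {a} < dg (av H {w}) {a} := by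
    intro a ha
    have e1 := dg_le_choose (union_subset hA hM') ha
    have e2 : dg (lk H {w} ∪ M) {a} = dg (lk H {w}) {a} + dg M {a} := by
      rw [dg, filter_union, card_union_of_disjoint (disjoint_filter_filter (hM ▸ disjoint_sdiff))]
      rfl
    have e3 := dg_split H (a := a) (w := w) (by simpa using (mem_sdiff.1 ha).2)
    have e4 := hm a (mem_sdiff.1 ha).1
    rw [e2, hW, Nat.sub_sub, Nat.sub_sub] at e1
    exact lt_of_add_lt_add_left ((e1.trans_lt e4).trans_le e3)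
  obtain ⟨Φ, hΦ⟩ : ∃ Φ : ℝ, Φ = (n - 1 - k).choose (k - 2) := ⟨_, rfl⟩
  have u2 := nu_pos n0 (k - 2)
  have f1 : nu n (k - 2) ≤ 30 * Φ := hΦ ▸ P.phi_ge
  have f0 : 0 < Φ := by linarith
  have h2 : ∀ C ∈ av H {w}, (k - 1) * Φ ≤ ∑ a ∈ C, (dg M {a} : ℝ) := by
    intro C hC
    obtain ⟨c1, c2⟩ := mem_powersetCard.1 (hB' hC)
    obtain ⟨c3, c4⟩ := mem_av.1 hC
    have c5 := disjoint_singleton_right.1 c4
    have e1 : ∀ Z ∈ powersetCard (k - 2) ((V \ {w}) \ C),
        k - 1 ≤ (C.filter fun a => insert a Z ∈ M).card := by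
      intro Z hZ
      obtain ⟨z1, z2⟩ := mem_powersetCard.1 hZ
      obtain ⟨z3, z4⟩ := subset_sdiff.1 z1
      have z5 : ∀ a ∈ C, a ∉ Z := fun a ha => disjoint_right.1 z4 ha
      have z6 : ∀ a ∈ C.filter fun a => ¬ insert a Z ∈ M, insert a (insert w Z) ∈ H := by
        intro a ha
        obtain ⟨a1, a2⟩ := mem_filter.1 ha
        rw [hM, mem_sdiff, not_and, not_not] at a2
        rw [insert_comm]
        refine (mem_lk1.1 (a2 (mem_powersetCard.2 ⟨insert_subset (c1 a1) z3, ?_⟩))).2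
        rw [card_insert_of_notMem (z5 a a1)]
        omega
      have z7 : ∀ a ∈ C, a ∉ insert w Z := fun a ha h =>
        (mem_insert.1 h).elim (fun e => c5 (e ▸ ha)) (z5 a ha)
      have e2 : (C.filter fun a => ¬ insert a Z ∈ M).card ≤ 1 := by
        refine card_le_one.2 fun a ha b hb => by_contra fun hab => ?_
        have a1 := (mem_filter.1 ha).1
        have b1 := (mem_filter.1 hb).1
        exact hc _ a b hab (z7 a a1) (z7 b b1) (z6 a ha) (z6 b hb) C c3 a1 b1 (disjoint_left.2 z7)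
      have e3 := card_filter_add_card_filter_not (s := C) fun a => insert a Z ∈ M
      omega
    have e2 := card_nsmul_le_sum _ _ _ e1
    simp only [card_filter] at e2
    rw [sum_comm, card_powersetCard, card_sdiff_of_subset c1, hW, c2, smul_eq_mul] at e2
    have e3 : (n - 1 - k).choose (k - 2) * (k - 1) ≤ ∑ a ∈ C, dg M {a} := by
      refine e2.trans (sum_le_sum fun a ha => ?_)
      rw [← card_filter, ← card_lk]
      refine card_le_card fun Z hZ => ?_
      obtain ⟨z1, z2⟩ := mem_filter.1 hZ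
      exact mem_lk1.2 ⟨disjoint_right.1 (subset_sdiff.1 (mem_powersetCard.1 z1).1).2 ha, z2⟩
    have e4 := Nat.cast_le (α := ℝ) |>.2 e3
    rw [Nat.cast_mul, Nat.cast_sub (by omega), Nat.cast_one, Nat.cast_sum, ← hΦ] at e4
    linarith
  obtain ⟨Z, hZ⟩ : ∃ Z, Z = (V \ {w}).filter fun a => Φ / 2 ≤ dg M {a} := ⟨_, rfl⟩
  have h3 : ∀ C ∈ av H {w}, 4 ≤ (C ∩ Z).card := by
    intro C hC
    obtain ⟨c1, c2⟩ := mem_powersetCard.1 (hB' hC)
    by_contra h
    have e1 := h2 C hC
    rw [← sum_inter_add_sum_sdiff C Z] at e1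
    have e2 := sum_le_card_nsmul (C ∩ Z) (fun a => (dg M {a} : ℝ)) (30 * Φ) fun a _ => by
      have := dg_le_nu (hM'.trans (powersetCard_mono sdiff_subset)) {a}
      rw [hV, card_singleton, Nat.sub_sub] at this
      exact this.trans f1
    have e3 := sum_le_card_nsmul (C \ Z) (fun a => (dg M {a} : ℝ)) (Φ / 2) fun a ha =>
      (not_le.1 fun e => (mem_sdiff.1 ha).2 (hZ ▸ mem_filter.2 ⟨c1 (mem_sdiff.1 ha).1, e⟩)).le
    have e4 : ((C ∩ Z).card : ℝ) ≤ 3 := by exact_mod_cast (show (C ∩ Z).card ≤ 3 by omega)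
    have e5 : ((C \ Z).card : ℝ) ≤ k := by exact_mod_cast c2 ▸ card_le_card sdiff_subset
    rw [nsmul_eq_mul] at e2 e3
    nlinarith only [e1, e2, e3, e4, e5, f0, k1, y0]
  have h4 : (Z.card : ℝ) ≤ 240 * y ^ 6 * n / k ^ 2 := by
    have e1 := card_nsmul_le_sum Z (fun a => (dg (av H {w}) {a} : ℝ)) (Φ / 2) fun a ha => by
      obtain ⟨a1, a2⟩ := mem_filter.1 (hZ ▸ ha)
      exact a2.trans (by exact_mod_cast (h1 a a1).le)
    have e2 := sum_le_card_nsmul (av H {w}) (fun C => ((C ∩ Z).card : ℝ)) k fun C hC => by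
      exact_mod_cast (mem_powersetCard.1 (hB' hC)).2 ▸ card_le_card inter_subset_left
    rw [← Nat.cast_sum, ← sum_inter, Nat.cast_sum] at e1
    have e3 := nu_succ n (k - 2)
    rw [show k - 2 + 1 = k - 1 by omega, Nat.cast_sub (by omega), Nat.cast_two] at e3
    have e4 : k * nu n (k - 1) ≤ 2 * (n * (30 * Φ)) := by
      have := nu_pos n0 (k - 1)
      have := mul_le_mul_of_nonneg_left f1 n0.le
      nlinarith
    rw [nsmul_eq_mul] at e1 e2
    refine le_of_mul_le_mul_right (e1.trans (e2.trans ?_)) (by positivity)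
    calc _ ≤ 2 * y ^ 6 / k ^ 2 * nu n (k - 1) * k := by gcongr
      _ = 2 * y ^ 6 / k ^ 2 * (k * nu n (k - 1)) := by ring
      _ ≤ 2 * y ^ 6 / k ^ 2 * (2 * (n * (30 * Φ))) := by gcongr
      _ = _ := by ring
  refine eq_empty_of_forall_notMem fun C hC => ?_
  obtain ⟨a, ha⟩ := card_pos.1 (lt_of_lt_of_le (by norm_num) (h3 C hC))
  obtain ⟨a1, a2⟩ := mem_filter.1 (hZ ▸ (mem_inter.1 ha).2)
  have h5 : (av H {w}).filter (fun C => {a} ⊆ C) ⊆ (powersetCard 3 (Z.erase a)).biUnion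
      fun S => H.filter fun C => insert a S ⊆ C := by
    intro D hD
    obtain ⟨d1, d2⟩ := mem_filter.1 hD
    obtain ⟨S, s1, s2⟩ := exists_subset_card_eq (s := (D ∩ Z).erase a) (n := 3)
      (le_trans (by have := h3 D d1; omega) pred_card_le_card_erase)
    refine mem_biUnion.2 ⟨S, mem_powersetCard.2
      ⟨s1.trans (erase_subset_erase _ inter_subset_right), s2⟩, mem_filter.2 ⟨av_subset _ _ d1,
      insert_subset (singleton_subset_iff.1 d2)
        (s1.trans ((erase_subset _ _).trans inter_subset_left))⟩⟩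
  have h6 := sum_le_card_nsmul (powersetCard 3 (Z.erase a)) (fun S => (dg H (insert a S) : ℝ))
    (nu n (k - 4)) fun S hS => by
      obtain ⟨s1, s2⟩ := mem_powersetCard.1 hS
      have := dg_le_nu hH (insert a S)
      rwa [hV, card_insert_of_notMem fun e => notMem_erase a Z (s1 e), s2] at this
  have h7 : (dg (av H {w}) {a} : ℝ) ≤ ∑ S ∈ powersetCard 3 (Z.erase a), (dg H (insert a S) : ℝ) := by
    exact_mod_cast (card_le_card h5).trans card_biUnion_le
  have h8 : ((powersetCard 3 (Z.erase a)).card : ℝ) ≤ Z.card ^ 3 := by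
    rw [card_powersetCard]
    exact_mod_cast (Nat.choose_le_pow _ _).trans (Nat.pow_le_pow_left card_erase_le 3)
  have h9 := nu_sub n0 (show k - 2 ≤ k by omega) 2 (by omega)
  have h10 : (dg M {a} : ℝ) < dg (av H {w}) {a} := by exact_mod_cast h1 a a1
  rw [nsmul_eq_mul] at h6
  refine not_le.2 (a2.trans_lt h10) (h7.trans (h6.trans ?_))
  have h11 : (y : ℝ) ^ 2 * y ^ 18 ≤ k := by
    rw [← pow_add]
    exact P.ky 20 le_rfl
  have h12 := P.n2'
  calc _ ≤ (240 * y ^ 6 * n / k ^ 2) ^ 3 * ((k / n) ^ 2 * (30 * Φ)) :=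
        mul_le_mul (h8.trans (by gcongr)) (h9.trans (by gcongr)) (nu_nonneg n0.le _)
          (by positivity)
    _ = 240 ^ 3 * 30 * y ^ 18 * n / k ^ 4 * Φ := by field_simp
    _ ≤ 1 / 2 * Φ := by
        gcongr ?_ * _
        rw [div_le_div_iff₀ (by positivity) (by positivity)]
        calc 240 ^ 3 * 30 * (y : ℝ) ^ 18 * n * 2 ≤ 240 ^ 3 * 30 * y ^ 18 * (2 * k ^ 3) * 2 := by gcongr
          _ = 240 ^ 3 * 120 * (y : ℝ) ^ 18 * k ^ 3 := by ring
          _ ≤ y ^ 2 * (y : ℝ) ^ 18 * k ^ 3 := by gcongr; nlinarith only [y0]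
          _ ≤ k * (k : ℝ) ^ 3 := by gcongr
          _ = _ := by ring
    _ = _ := by ring

theorem step_large {k n y : ℕ} (P : Par k n y) (hn : n * (1 + 5 / y) ≤ Real.exp 1 / 2 * k ^ 3)
    {V : Finset α} (hV : V.card = n) {H : Finset (Finset α)} (hH : H ⊆ powersetCard k V)
    (hc : Cross H H) (hm : ∀ a ∈ V, (n - 2).choose (k - 2) < dg H {a}) :
    H.card ≤ (n - 1).choose (k - 1) := by
  by_contra hb
  obtain ⟨w, hw, h⟩ := exists_centre P hn hV hH hc (not_le.1 hb)
  have h1 := card_le_av H {w}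
  rw [inside_star P hV hH hc hw h hm, card_empty, zero_add, sum_singleton] at h1
  exact hb (h1.trans (hV ▸ dg_le_choose hH hw))

end Pool.Agent.MP_6574cc_co.H13
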